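import Mathlib

/-!
# Radius of comparison of crossed products by homeomorphisms: definitions

* `CuntzLE a b`: Cuntz subequivalence.
* `TracialState A`, `dTr τ a`: tracial states and the dimension function `d_τ`.
* `ComparesAt A s`, `rc A`: the radius of comparison.
* `Cross h`: the crossed product of `C(X)` by the integers given by the homeomorphism `h`, in its
  regular representation on `l^2(Z x X)`.
-/

open scoped ENNReal NNReal Topology CStarAlgebra ComplexOrder
open Filter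

noncomputable section

namespace Pool.Agent.Helper61.RC

/-! ## Cuntz subequivalence, traces, radius of comparison -/

/-- Cuntz subequivalence in a C*-algebra `M`: there are `v_j` with `v_j b v_j* → a`. -/
def CuntzLE {M : Type*} [CStarAlgebra M] (a b : M) : Prop :=
  ∀ ε : ℝ, 0 < ε → ∃ v : M, ‖v * b * star v - a‖ < ε

/-- Continuous functional calculus for real functions and self-adjoint elements. -/
def fc {M : Type*} [CStarAlgebra M] (f : ℝ → ℝ) (a : M) : M := cfc f a

/-- For a linear functional `ρ`: the limit of `ρ(a^{1/m})` (real part). -/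
def dRho {M : Type*} [CStarAlgebra M] (ρ : M →ₗ[ℂ] ℂ) (a : M) : ℝ :=
  limUnder atTop (fun m : ℕ => (ρ (fc (fun t : ℝ => t ^ ((1 : ℝ) / ((m : ℝ) + 1))) a)).re)

/-- Tracial states of a unital C*-algebra. -/
structure TracialState (A : Type*) [CStarAlgebra A] where
  /-- the underlying linear functional -/
  toLin : A →ₗ[ℂ] ℂ
  pos' : ∀ a : A, 0 ≤ toLin (star a * a)
  one' : toLin 1 = 1
  comm' : ∀ a b : A, toLin (a * b) = toLin (b * a)

/-- `M_k(A)`. -/
abbrev Mat (k : ℕ) (A : Type*) : Type _ := CStarMatrix (Fin k) (Fin k) A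

/-- The (non-normalised) extension of a tracial state to square matrices over `A`. -/
def TracialState.mat {A : Type*} [CStarAlgebra A] (τ : TracialState A)
    {ι : Type*} [Fintype ι] : CStarMatrix ι ι A →ₗ[ℂ] ℂ where
  toFun a := ∑ i, τ.toLin (a i i)
  map_add' a b := by simp [Finset.sum_add_distrib]
  map_smul' c a := by simp [Finset.mul_sum]

section
variable {A : Type*} [CStarAlgebra A] [PartialOrder A] [StarOrderedRing A]

/-- `d_τ(a) = lim_m τ(a^{1/m})` for a matrix `a` over `A`. -/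
def dTr (τ : TracialState A) {ι : Type*} [Fintype ι] [DecidableEq ι]
    (a : CStarMatrix ι ι A) : ℝ := dRho τ.mat a

variable (A)

/-- The comparison property with gap `s`: if `d_τ(a) + s < d_τ(b)` for all tracial states `τ` then
`a` is Cuntz subequivalent to `b`. -/
def ComparesAt (s : ℝ) : Prop :=
  ∀ (k : ℕ) (a b : Mat k A), 0 ≤ a → 0 ≤ b →
    (∀ τ : TracialState A, dTr τ a + s < dTr τ b) → CuntzLE a b

/-- The radius of comparison. -/
def rc : ℝ≥0∞ := sInf {r : ℝ≥0∞ | ∃ s : ℝ, 0 < s ∧ ComparesAt A s ∧ r = ENNReal.ofReal s}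

end

/-! ## Weighted composition operators on `l^2` -/

/-- The Hilbert space `l^2(ι)`. -/
abbrev L2 (ι : Type*) : Type _ := lp (fun _ : ι => ℂ) 2

section
variable {ι κ : Type*}

lemma memlp_wop (e : ι → κ) (φ : ι → ℂ) (C : ℝ) (hφ : ∀ i, ‖φ i‖ ≤ C)
    (he : Set.InjOn e {i | φ i ≠ 0}) (ξ : L2 κ) (s : Finset ι) :
    ∑ i ∈ s, ‖φ i * ξ (e i)‖ ^ (2 : ℝ≥0∞).toReal ≤ (|C| * ‖ξ‖) ^ (2 : ℝ≥0∞).toReal := by
  classical
  have h2 : (2 : ℝ≥0∞).toReal = 2 := by norm_num
  rw [h2]
  have hC : ∀ i, ‖φ i‖ ≤ |C| := fun i => (hφ i).trans (le_abs_self C)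
  calc ∑ i ∈ s, ‖φ i * ξ (e i)‖ ^ (2 : ℝ)
      = ∑ i ∈ s.filter (fun i => φ i ≠ 0), ‖φ i * ξ (e i)‖ ^ (2 : ℝ) := by
        rw [Finset.sum_filter]
        refine Finset.sum_congr rfl fun i _ => ?_
        split_ifs with h
        · rfl
        · push Not at h
          simp [h]
    _ ≤ ∑ i ∈ s.filter (fun i => φ i ≠ 0), |C| ^ (2 : ℝ) * ‖ξ (e i)‖ ^ (2 : ℝ) := by
        refine Finset.sum_le_sum fun i _ => ?_
        rw [norm_mul, Real.mul_rpow (norm_nonneg _) (norm_nonneg _)]
        gcongr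
        exact hC i
    _ = |C| ^ (2 : ℝ) * ∑ j ∈ (s.filter (fun i => φ i ≠ 0)).image e, ‖ξ j‖ ^ (2 : ℝ) := by
        rw [← Finset.mul_sum, Finset.sum_image]
        intro a ha b hb hab
        simp only [Finset.coe_filter, Set.mem_ofPred_eq] at ha hb
        exact he ha.2 hb.2 hab
    _ ≤ |C| ^ (2 : ℝ) * ‖ξ‖ ^ (2 : ℝ) := by
        gcongr
        have := lp.sum_rpow_le_norm_rpow (p := 2) (by norm_num) ξ
          ((s.filter (fun i => φ i ≠ 0)).image e)
        rwa [h2] at this
    _ = (|C| * ‖ξ‖) ^ (2 : ℝ) := by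
        rw [Real.mul_rpow (abs_nonneg _) (norm_nonneg _)]

/-- The operator `(wop e φ ξ)(i) = φ(i) ξ(e i)`; here `φ` is bounded and `e` is injective on the
support of `φ`. -/
def wop (e : ι → κ) (φ : ι → ℂ) (C : ℝ) (hφ : ∀ i, ‖φ i‖ ≤ C)
    (he : Set.InjOn e {i | φ i ≠ 0}) : L2 κ →L[ℂ] L2 ι :=
  LinearMap.mkContinuous
    { toFun := fun ξ => ⟨fun i => φ i * ξ (e i), memℓp_gen' (memlp_wop e φ C hφ he ξ)⟩
      map_add' := by
        intro ξ η
        ext i
        simp [mul_add]
      map_smul' := by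
        intro c ξ
        ext i
        simp [mul_left_comm] }
    |C| (by
      intro ξ
      refine lp.norm_le_of_forall_sum_le (by norm_num) (by positivity) ?_
      exact memlp_wop e φ C hφ he ξ)

@[simp] lemma wop_apply (e : ι → κ) (φ : ι → ℂ) (C : ℝ) (hφ : ∀ i, ‖φ i‖ ≤ C)
    (he : Set.InjOn e {i | φ i ≠ 0}) (ξ : L2 κ) (i : ι) :
    wop e φ C hφ he ξ i = φ i * ξ (e i) := rfl

lemma norm_wop_le (e : ι → κ) (φ : ι → ℂ) (C : ℝ) (hφ : ∀ i, ‖φ i‖ ≤ C)
    (he : Set.InjOn e {i | φ i ≠ 0}) (hC : 0 ≤ C) : ‖wop e φ C hφ he‖ ≤ C := by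
  refine (LinearMap.mkContinuous_norm_le _ (abs_nonneg C) _).trans ?_
  rw [abs_of_nonneg hC]

end

/-! ## The crossed product -/

/-- Bounded operators on `l^2(Z x X)`. -/
abbrev Op (X : Type*) : Type _ := L2 (ℤ × X) →L[ℂ] L2 (ℤ × X)

/-- `(shiftOp ξ)(p, x) = ξ(p - 1, x)`: the canonical unitary. -/
def shiftOp (X : Type*) : Op X :=
  wop (fun q : ℤ × X => (q.1 - 1, q.2)) (fun _ => 1) 1 (by simp)
    (by
      rintro ⟨p, x⟩ _ ⟨p', x'⟩ _ hab
      simp only [Prod.mk.injEq, sub_left_inj] at hab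
      ext <;> simp [hab])

section
variable {X : Type*} [TopologicalSpace X] [CompactSpace X]

/-- `(mulOp h f ξ)(p, x) = f(h^p x) ξ(p, x)`: the copy of `C(X)`. -/
def mulOp (h : X ≃ₜ X) (f : C(X, ℂ)) : Op X :=
  wop (fun q : ℤ × X => q) (fun q => f ((h ^ q.1) q.2)) ‖f‖ (fun _ => f.norm_coe_le_norm _)
    (fun _ _ _ _ hab => hab)

/-- The C*-algebra of operators on `l^2(Z x X)` generated by the operators `mulOp h f`,
`f ∈ C(X)`, and the unitary `shiftOp`. -/
def crossSub (h : X ≃ₜ X) : StarSubalgebra ℂ (Op X) :=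
  (StarAlgebra.adjoin ℂ (Set.range (mulOp h) ∪ {shiftOp X})).topologicalClosure

instance isClosed_crossSub (h : X ≃ₜ X) :
    IsClosed ((crossSub h : StarSubalgebra ℂ (Op X)) : Set (Op X)) :=
  StarSubalgebra.isClosed_topologicalClosure _

/-- The (reduced, hence full) crossed product `C*(Z, X, h)` as a C*-algebra: the closure of the
*-algebra generated by `C(X)` and the canonical unitary in the regular representation. -/
def Cross (h : X ≃ₜ X) : Type _ := crossSub h

instance (h : X ≃ₜ X) : CStarAlgebra (Cross h) := inferInstanceAs (CStarAlgebra (crossSub h))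
instance (h : X ≃ₜ X) : PartialOrder (Cross h) := CStarAlgebra.spectralOrder _
instance (h : X ≃ₜ X) : StarOrderedRing (Cross h) := CStarAlgebra.spectralOrderedRing _

/-- `h` is minimal: every orbit is dense. -/
def MinimalHomeo (h : X ≃ₜ X) : Prop := ∀ x : X, Dense (Set.range fun m : ℤ => (h ^ m) x)

end

end Pool.Agent.Helper61.RC
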