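import Pool.Agent.Helper61.RC.Base2

/-!
# RC-6: the averaging lemma (MP_d05fd5_an)

Proof by helper79, with the constant in front of `ε` made independent of `K`.
-/

open scoped ENNReal NNReal Topology CStarAlgebra ComplexOrder
open Filter

noncomputable section

namespace Pool.Agent.Helper61.RC

section A
variable {M : Type*} [CStarAlgebra M] [PartialOrder M] [StarOrderedRing M]

omit [PartialOrder M] [StarOrderedRing M] in
private lemma norm_proj_le {p : M} (hs : star p = p) (hp : p * p = p) : ‖p‖ ≤ 1 := by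
  have h : ‖p‖ * ‖p‖ = ‖p‖ := by
    rw [← CStarRing.norm_star_mul_self (x := p), hs, hp]
  nlinarith [norm_nonneg p]

omit [PartialOrder M] [StarOrderedRing M] in
private lemma norm_one_le' : ‖(1 : M)‖ ≤ 1 := norm_proj_le (star_one M) (one_mul 1)

omit [PartialOrder M] [StarOrderedRing M] in
private lemma norm_isom_le {S : M} (hS : star S * S = 1) : ‖S‖ ≤ 1 := by
  have h : ‖S‖ * ‖S‖ ≤ 1 := by
    rw [← CStarRing.norm_star_mul_self (x := S), hS]
    exact norm_one_le'
  nlinarith [norm_nonneg S]

omit [PartialOrder M] [StarOrderedRing M] in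
private lemma comm_mul_le (E x y : M) {A B X Y : ℝ} (hA : ‖E * x - x * E‖ ≤ A)
    (hB : ‖E * y - y * E‖ ≤ B) (hX : ‖x‖ ≤ X) (hY : ‖y‖ ≤ Y) :
    ‖E * (x * y) - x * y * E‖ ≤ A * Y + X * B := by
  have h : E * (x * y) - x * y * E = (E * x - x * E) * y + x * (E * y - y * E) := by noncomm_ring
  rw [h]
  refine (norm_add_le _ _).trans (add_le_add ?_ ?_)
  · exact (norm_mul_le _ _).trans (mul_le_mul hA hY (norm_nonneg _) ((norm_nonneg _).trans hA))
  · exact (norm_mul_le _ _).trans (mul_le_mul hX hB (norm_nonneg _) ((norm_nonneg _).trans hX))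

-- RC-6 : averaging lemma
theorem averaging (n : ℕ) [NeZero n] (K : ℝ) (hK : 0 ≤ K) : ∃ C : ℝ, 0 < C ∧
    ∀ (P G α : ZMod n → M) (S a b : M) (ε δ : ℝ), 0 ≤ ε → 0 ≤ δ → δ ≤ 1 →
      (∀ i, star (P i) = P i) → (∀ i, P i * P i = P i) → (∀ i j, i ≠ j → P i * P j = 0) →
      ∑ i, P i = 1 → star S * S = 1 → S * star S = 1 →
      (∀ i, S * P i * star S = P (i - 1)) →
      (∀ i, star (G i) = G i) → (∀ i, ‖G i‖ ≤ 1) → (∀ i j, i ≠ j → G i * G j = 0) →
      (∀ i j, G i * P j = P j * G i) → (∀ i, S * G i = G i * S) →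
      S * a = a * S → S * b = b * S → (∀ i, S * α i = α i * S) →
      ‖a‖ ≤ K → ‖b‖ ≤ K → (∀ i, ‖α i‖ ≤ K) →
      (∀ j, ‖(∑ i, P (i - j) * G i) * a - a * ∑ i, P (i - j) * G i‖ ≤ δ) →
      (∀ j, ‖(∑ i, P (i - j) * G i) * b - b * ∑ i, P (i - j) * G i‖ ≤ δ) →
      (∀ j l, ‖(∑ i, P (i - j) * G i) * α l - α l * ∑ i, P (i - j) * G i‖ ≤ δ) →
      ‖(∑ i, P i * α i) * b * star (∑ i, P i * α i) - a‖ ≤ ε →
      ‖(∑ i, G i * α i) * b * star (∑ i, G i * α i) - (∑ i, G i * G i) * a‖ ≤
        (n : ℝ) ^ 3 * ε + C * δ := by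
  set N : ℝ := (n : ℝ) with hN
  have hN0 : 0 ≤ N := Nat.cast_nonneg n
  refine ⟨N * N * (3 * N ^ 3 * K ^ 2 + N) + 1, by positivity, ?_⟩
  intro P G α S a b ε δ hε hδ _ hPs hPP hPo hP1 hSS hSS' hSP hGs hGn hGo hGP hSG hSa hSb hSα hKa hKb
    hKα hEa hEb hEα hVε
  -- the elements E j and V j
  set E : ZMod n → M := fun j => ∑ i, P (i - j) * G i with hE
  set V : ZMod n → M := fun j => ∑ i, P (i - j) * α i with hV
  have hcardn : (Finset.univ : Finset (ZMod n)).card = n := by
    rw [Finset.card_univ, ZMod.card]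
  have hPn : ∀ i, ‖P i‖ ≤ 1 := fun i => norm_proj_le (hPs i) (hPP i)
  have hEn : ∀ j, ‖E j‖ ≤ N := by
    intro j
    calc ‖E j‖ ≤ ∑ i : ZMod n, ‖P (i - j) * G i‖ := norm_sum_le _ _
      _ ≤ ∑ i : ZMod n, (1 : ℝ) := by
        refine Finset.sum_le_sum fun i _ => ?_
        refine (norm_mul_le _ _).trans ?_
        calc ‖P (i - j)‖ * ‖G i‖ ≤ 1 * 1 :=
              mul_le_mul (hPn _) (hGn _) (norm_nonneg _) zero_le_one
          _ = 1 := one_mul 1
      _ = N := by rw [Finset.sum_const, hcardn, nsmul_eq_mul, mul_one]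
  have hVn : ∀ j, ‖V j‖ ≤ N * K := by
    intro j
    calc ‖V j‖ ≤ ∑ i : ZMod n, ‖P (i - j) * α i‖ := norm_sum_le _ _
      _ ≤ ∑ i : ZMod n, K := by
        refine Finset.sum_le_sum fun i _ => ?_
        refine (norm_mul_le _ _).trans ?_
        calc ‖P (i - j)‖ * ‖α i‖ ≤ 1 * K :=
              mul_le_mul (hPn _) (hKα _) (norm_nonneg _) zero_le_one
          _ = K := one_mul K
      _ = N * K := by rw [Finset.sum_const, hcardn, nsmul_eq_mul]
  -- commutation of the projections
  have hPcomm : ∀ i j, P i * P j = P j * P i := by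
    intro i j
    by_cases hij : i = j
    · rw [hij]
    · rw [hPo i j hij, hPo j i (Ne.symm hij)]
  have hEP : ∀ j m, E j * P m = P m * E j := by
    intro j m
    simp only [hE, Finset.sum_mul, Finset.mul_sum]
    refine Finset.sum_congr rfl fun i _ => ?_
    rw [mul_assoc, hGP, ← mul_assoc, hPcomm, mul_assoc]
  have hEs : ∀ j, star (E j) = E j := by
    intro j
    simp only [hE, star_sum, star_mul, hPs, hGs, hGP]
  have hEE : ∀ j l, j ≠ l → E j * E l = 0 := by
    intro j l hjl
    simp only [hE, Finset.sum_mul, Finset.mul_sum]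
    refine Finset.sum_eq_zero fun i _ => Finset.sum_eq_zero fun i' _ => ?_
    have h1 : P (i' - j) * G i' * (P (i - l) * G i) = P (i' - j) * P (i - l) * (G i' * G i) := by
      rw [mul_assoc, ← mul_assoc (G i'), hGP]
      simp only [mul_assoc]
    rw [h1]
    by_cases h2 : i' = i
    · subst h2
      rw [hPo, zero_mul]
      intro h3
      exact hjl (sub_right_injective h3)
    · rw [hGo _ _ h2, mul_zero]
  have hEsq : ∑ j, E j * E j = ∑ i, G i * G i := by
    have h1 : ∀ j, E j * E j = ∑ i, P (i - j) * (G i * G i) := by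
      intro j
      simp only [hE]
      rw [Finset.sum_mul_sum]
      refine Finset.sum_congr rfl fun i _ => ?_
      rw [Finset.sum_eq_single i]
      · rw [mul_assoc, ← mul_assoc (G i), hGP, mul_assoc, ← mul_assoc (P (i - j)), hPP]
      · intro i' _ hi'
        rw [mul_assoc, ← mul_assoc (G i), hGP, mul_assoc, hGo _ _ (Ne.symm hi'), mul_zero, mul_zero]
      · intro h; exact absurd (Finset.mem_univ _) h
    simp only [h1]
    rw [Finset.sum_comm]
    refine Finset.sum_congr rfl fun i _ => ?_
    rw [← Finset.sum_mul]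
    have h2 : ∑ j : ZMod n, P (i - j) = 1 := by
      rw [← hP1]
      exact Fintype.sum_equiv (Equiv.subLeft i) _ _ (fun j => rfl)
    rw [h2, one_mul]
  have hEV : ∑ j, E j * V j = ∑ i, G i * α i := by
    have h1 : ∀ j, E j * V j = ∑ i, P (i - j) * (G i * α i) := by
      intro j
      simp only [hE, hV]
      rw [Finset.sum_mul_sum]
      refine Finset.sum_congr rfl fun i _ => ?_
      rw [Finset.sum_eq_single i]
      · rw [mul_assoc, ← mul_assoc (G i), hGP, mul_assoc, ← mul_assoc (P (i - j)), hPP]
      · intro i' _ hi'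
        rw [mul_assoc, ← mul_assoc (G i), hGP, mul_assoc, ← mul_assoc (P (i - j)),
          hPo _ _ (fun h => hi' (sub_left_injective h).symm), zero_mul]
      · intro h; exact absurd (Finset.mem_univ _) h
    simp only [h1]
    rw [Finset.sum_comm]
    refine Finset.sum_congr rfl fun i _ => ?_
    rw [← Finset.sum_mul]
    have h2 : ∑ j : ZMod n, P (i - j) = 1 := by
      rw [← hP1]
      exact Fintype.sum_equiv (Equiv.subLeft i) _ _ (fun j => rfl)
    rw [h2, one_mul]
  -- commutators
  have hcV : ∀ j l, ‖E j * V l - V l * E j‖ ≤ N * δ := by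
    intro j l
    have h1 : E j * V l - V l * E j = ∑ i, P (i - l) * (E j * α i - α i * E j) := by
      simp only [hV, Finset.mul_sum, Finset.sum_mul, ← Finset.sum_sub_distrib]
      refine Finset.sum_congr rfl fun i _ => ?_
      rw [mul_sub, ← mul_assoc, hEP, mul_assoc, mul_assoc]
    rw [h1]
    calc ‖∑ i, P (i - l) * (E j * α i - α i * E j)‖
        ≤ ∑ i : ZMod n, ‖P (i - l) * (E j * α i - α i * E j)‖ := norm_sum_le _ _
      _ ≤ ∑ i : ZMod n, δ := by
        refine Finset.sum_le_sum fun i _ => ?_
        refine (norm_mul_le _ _).trans ?_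
        calc ‖P (i - l)‖ * ‖E j * α i - α i * E j‖ ≤ 1 * δ :=
              mul_le_mul (hPn _) (hEα j i) (norm_nonneg _) zero_le_one
          _ = δ := one_mul δ
      _ = N * δ := by rw [Finset.sum_const, hcardn, nsmul_eq_mul]
  have hcVs : ∀ j l, ‖E j * star (V l) - star (V l) * E j‖ ≤ N * δ := by
    intro j l
    have h1 : E j * star (V l) - star (V l) * E j = - star (E j * V l - V l * E j) := by
      rw [star_sub, star_mul, star_mul, hEs, neg_sub]
    rw [h1, norm_neg, norm_star]
    exact hcV j l
  -- conjugation by S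
  have hVS : ∀ j, S * V j * star S = V (j + 1) := by
    intro j
    simp only [hV, Finset.mul_sum, Finset.sum_mul]
    refine Finset.sum_congr rfl fun i _ => ?_
    have h1 : α i * star S = star S * α i := by
      calc α i * star S = (star S * S) * (α i * star S) := by rw [hSS, one_mul]
        _ = star S * (S * α i) * star S := by simp only [mul_assoc]
        _ = star S * (α i * S) * star S := by rw [hSα]
        _ = star S * α i * (S * star S) := by simp only [mul_assoc]
        _ = star S * α i := by rw [hSS', mul_one]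
    calc S * (P (i - j) * α i) * star S = S * P (i - j) * (α i * star S) := by
          simp only [mul_assoc]
      _ = S * P (i - j) * star S * α i := by rw [h1]; simp only [mul_assoc]
      _ = P (i - j - 1) * α i := by rw [hSP]
      _ = P (i - (j + 1)) * α i := by rw [sub_sub]
  have hSb' : star S * b * S = b := by
    rw [mul_assoc, ← hSb, ← mul_assoc, hSS, one_mul]
  have hSa' : S * a * star S = a := by
    rw [hSa, mul_assoc, hSS', mul_one]
  have hSn : ‖S‖ ≤ 1 := norm_isom_le hSS
  have hVb0 : ∀ m : ℕ, ‖V (m : ZMod n) * b * star (V (m : ZMod n)) - a‖ ≤ ε := by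
    intro m
    induction m with
    | zero =>
      have h1 : V ((0 : ℕ) : ZMod n) = ∑ i, P i * α i := by
        simp only [hV, Nat.cast_zero, sub_zero]
      rw [h1]
      exact hVε
    | succ m ih =>
      have h1 : V ((m + 1 : ℕ) : ZMod n) = S * V (m : ZMod n) * star S := by
        rw [hVS, Nat.cast_succ]
      rw [h1]
      have h2 : S * V (m : ZMod n) * star S * b * star (S * V (m : ZMod n) * star S) - a =
          S * (V (m : ZMod n) * b * star (V (m : ZMod n)) - a) * star S := by
        rw [mul_sub, sub_mul, hSa', star_mul, star_mul, star_star]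
        congr 1
        calc S * V (m : ZMod n) * star S * b * (S * (star (V (m : ZMod n)) * star S))
            = S * V (m : ZMod n) * (star S * b * S) * star (V (m : ZMod n)) * star S := by
              simp only [mul_assoc]
          _ = S * (V (m : ZMod n) * b * star (V (m : ZMod n))) * star S := by
              rw [hSb']; simp only [mul_assoc]
      rw [h2]
      calc ‖S * (V (m : ZMod n) * b * star (V (m : ZMod n)) - a) * star S‖
          ≤ ‖S * (V (m : ZMod n) * b * star (V (m : ZMod n)) - a)‖ * ‖star S‖ := norm_mul_le _ _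
        _ ≤ ‖S‖ * ‖V (m : ZMod n) * b * star (V (m : ZMod n)) - a‖ * ‖star S‖ := by
            gcongr
            exact norm_mul_le _ _
        _ ≤ 1 * ε * 1 := by
            rw [norm_star]
            gcongr
        _ = ε := by ring
  have hVb : ∀ j, ‖V j * b * star (V j) - a‖ ≤ ε := by
    intro j
    have := hVb0 j.val
    rwa [ZMod.natCast_zmod_val] at this
  -- the main estimate
  set D : ℝ := 3 * N ^ 3 * K ^ 2 + N with hD
  have hterm : ∀ j l, ‖E j * V j * b * (star (V l) * E l) -
      (if j = l then E j * E j * a else 0)‖ ≤ (if j = l then N ^ 2 * ε else 0) + D * δ := by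
    intro j l
    have hcomm : ‖E j * (V j * b * star (V l)) - V j * b * star (V l) * E j‖ ≤
        (N * δ * K + N * K * δ) * (N * K) + N * K * K * (N * δ) := by
      have h1 : ‖E j * (V j * b) - V j * b * E j‖ ≤ N * δ * K + N * K * δ :=
        comm_mul_le (E j) (V j) b (hcV j j) (hEb j) (hVn j) hKb
      refine comm_mul_le (E j) (V j * b) (star (V l)) h1 (hcVs j l) ?_ ?_
      · exact (norm_mul_le _ _).trans
          (mul_le_mul (hVn j) hKb (norm_nonneg _) (by positivity))
      · rw [norm_star]; exact hVn l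
    have hcomm' : (N * δ * K + N * K * δ) * (N * K) + N * K * K * (N * δ) = 3 * N ^ 2 * K ^ 2 * δ := by
      ring
    rw [hcomm'] at hcomm
    split_ifs with hjl
    · subst hjl
      have h1 : E j * V j * b * (star (V j) * E j) - E j * E j * a =
          E j * (V j * b * star (V j) - a) * E j - E j * (E j * a - a * E j) := by
        noncomm_ring
      rw [h1]
      have h2 : ‖E j * (V j * b * star (V j) - a) * E j‖ ≤ N * ε * N := by
        refine (norm_mul_le _ _).trans ?_
        refine mul_le_mul ?_ (hEn j) (norm_nonneg _) (by positivity)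
        exact (norm_mul_le _ _).trans (mul_le_mul (hEn j) (hVb j) (norm_nonneg _) hN0)
      have h3 : ‖E j * (E j * a - a * E j)‖ ≤ N * δ :=
        (norm_mul_le _ _).trans (mul_le_mul (hEn j) (hEa j) (norm_nonneg _) hN0)
      refine (norm_sub_le _ _).trans ((add_le_add h2 h3).trans ?_)
      have h4 : 0 ≤ 3 * N ^ 3 * K ^ 2 * δ := by positivity
      rw [hD]
      nlinarith
    · rw [sub_zero, zero_add]
      have h1 : E j * V j * b * (star (V l) * E l) =
          (E j * (V j * b * star (V l)) - V j * b * star (V l) * E j) * E l := by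
        rw [sub_mul, mul_assoc (V j * b * star (V l)) (E j) (E l), hEE j l hjl, mul_zero, sub_zero]
        simp only [mul_assoc]
      rw [h1]
      calc ‖(E j * (V j * b * star (V l)) - V j * b * star (V l) * E j) * E l‖
          ≤ ‖E j * (V j * b * star (V l)) - V j * b * star (V l) * E j‖ * ‖E l‖ := norm_mul_le _ _
        _ ≤ 3 * N ^ 2 * K ^ 2 * δ * N :=
            mul_le_mul hcomm (hEn l) (norm_nonneg _) (by positivity)
        _ ≤ D * δ := by
            have h5 : 0 ≤ N * δ := by positivity
            rw [hD]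
            nlinarith
  have hid : (∑ i, G i * α i) * b * star (∑ i, G i * α i) - (∑ i, G i * G i) * a =
      ∑ j, ∑ l, (E j * V j * b * (star (V l) * E l) - (if j = l then E j * E j * a else 0)) := by
    rw [← hEV, ← hEsq]
    simp only [star_sum, star_mul, hEs, Finset.sum_sub_distrib, Finset.sum_ite_eq, Finset.mem_univ,
      if_true, Finset.sum_mul]
    congr 1
    refine Finset.sum_congr rfl fun j _ => ?_
    rw [Finset.mul_sum]
  rw [hid]
  calc ‖∑ j, ∑ l, (E j * V j * b * (star (V l) * E l) - (if j = l then E j * E j * a else 0))‖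
      ≤ ∑ j : ZMod n, ∑ l : ZMod n, ((if j = l then N ^ 2 * ε else 0) + D * δ) := by
        refine (norm_sum_le _ _).trans (Finset.sum_le_sum fun j _ => ?_)
        exact (norm_sum_le _ _).trans (Finset.sum_le_sum fun l _ => hterm j l)
    _ = N ^ 3 * ε + N * N * D * δ := by
        simp only [Finset.sum_add_distrib, Finset.sum_ite_eq, Finset.mem_univ, if_true,
          Finset.sum_const, hcardn, nsmul_eq_mul]
        ring
    _ ≤ N ^ 3 * ε + (N * N * D + 1) * δ := by
        gcongr
        linarith

end A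

end Pool.Agent.Helper61.RC
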