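import Pool.Agent.Helper61.RC.Defs

/-!
# Basic identities in the regular representation
-/

open scoped ENNReal NNReal Topology CStarAlgebra ComplexOrder
open Filter

noncomputable section

namespace Pool.Agent.Helper61.RC

section wop
variable {ι κ μ : Type*}

lemma inner_L2 (ξ η : L2 ι) : inner ℂ ξ η = ∑' i, inner ℂ (ξ i) (η i) :=
  lp.inner_eq_tsum ξ η

/-- Adjoint of a weighted composition operator. -/
lemma wop_adjoint (e : ι → κ) (φ : ι → ℂ) (C : ℝ) (hφ : ∀ i, ‖φ i‖ ≤ C)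
    (he : Set.InjOn e {i | φ i ≠ 0}) (e' : κ → ι) (φ' : κ → ℂ) (C' : ℝ) (hφ' : ∀ i, ‖φ' i‖ ≤ C')
    (he' : Set.InjOn e' {i | φ' i ≠ 0})
    (h1 : ∀ i, φ i ≠ 0 → e' (e i) = i ∧ φ' (e i) = star (φ i))
    (h2 : ∀ j, φ' j ≠ 0 → e (e' j) = j ∧ φ (e' j) = star (φ' j)) :
    ContinuousLinearMap.adjoint (wop e φ C hφ he) = wop e' φ' C' hφ' he' := by
  classical
  symm
  rw [ContinuousLinearMap.eq_adjoint_iff]
  intro ξ η
  rw [inner_L2, inner_L2]
  have hsum1 : ∑' j, inner ℂ (wop e' φ' C' hφ' he' ξ j) (η j)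
      = ∑' j : {j // φ' j ≠ 0}, inner ℂ (wop e' φ' C' hφ' he' ξ j) (η j) := by
    symm
    refine tsum_subtype_eq_of_support_subset (s := {j | φ' j ≠ 0})
      (f := fun j => inner ℂ (wop e' φ' C' hφ' he' ξ j) (η j)) ?_
    intro j hj
    simp only [Function.mem_support, wop_apply] at hj
    intro h0
    apply hj
    simp [h0]
  have hsum2 : ∑' i, inner ℂ (ξ i) (wop e φ C hφ he η i)
      = ∑' i : {i // φ i ≠ 0}, inner ℂ (ξ i) (wop e φ C hφ he η i) := by
    symm
    refine tsum_subtype_eq_of_support_subset (s := {i | φ i ≠ 0})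
      (f := fun i => inner ℂ (ξ i) (wop e φ C hφ he η i)) ?_
    intro i hi
    simp only [Function.mem_support, wop_apply] at hi
    intro h0
    apply hi
    simp [h0]
  rw [hsum1, hsum2]
  let E : {j // φ' j ≠ 0} ≃ {i // φ i ≠ 0} :=
    { toFun := fun j => ⟨e' j, by rw [(h2 j j.2).2]; simpa using j.2⟩
      invFun := fun i => ⟨e i, by rw [(h1 i i.2).2]; simpa using i.2⟩
      left_inv := fun j => Subtype.ext (h2 j j.2).1
      right_inv := fun i => Subtype.ext (h1 i i.2).1 }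
  rw [← E.tsum_eq]
  refine tsum_congr fun j => ?_
  have hE : ((E j : {i // φ i ≠ 0}) : ι) = e' j := rfl
  rw [hE]
  simp only [wop_apply, (h2 j j.2).2, (h2 j j.2).1]
  simp [mul_comm, mul_left_comm]

lemma wop_mul (e : ι → κ) (φ : ι → ℂ) (C : ℝ) (hφ : ∀ i, ‖φ i‖ ≤ C)
    (he : Set.InjOn e {i | φ i ≠ 0}) (e' : κ → μ) (φ' : κ → ℂ) (C' : ℝ) (hφ' : ∀ i, ‖φ' i‖ ≤ C')
    (he' : Set.InjOn e' {i | φ' i ≠ 0}) (ξ : L2 μ) (i : ι) :
    (wop e φ C hφ he).comp (wop e' φ' C' hφ' he') ξ i = φ i * φ' (e i) * ξ (e' (e i)) := by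
  simp [mul_assoc]

/-- Two operators which agree coefficientwise are equal. -/
lemma op_ext {S T : L2 κ →L[ℂ] L2 ι} (h : ∀ ξ i, S ξ i = T ξ i) : S = T := by
  ext ξ i
  exact h ξ i

end wop

section model
variable {X : Type*} [TopologicalSpace X] [CompactSpace X]

@[simp] lemma mulOp_apply (h : X ≃ₜ X) (f : C(X, ℂ)) (ξ : L2 (ℤ × X)) (q : ℤ × X) :
    mulOp h f ξ q = f ((h ^ q.1) q.2) * ξ q := rfl

omit [TopologicalSpace X] [CompactSpace X] in
@[simp] lemma shiftOp_apply (ξ : L2 (ℤ × X)) (q : ℤ × X) :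
    shiftOp X ξ q = ξ (q.1 - 1, q.2) := by simp [shiftOp]

lemma mulOp_mul (h : X ≃ₜ X) (f g : C(X, ℂ)) : mulOp h (f * g) = mulOp h f * mulOp h g := by
  refine op_ext fun ξ q => ?_
  simp [mul_assoc]

lemma mulOp_add (h : X ≃ₜ X) (f g : C(X, ℂ)) : mulOp h (f + g) = mulOp h f + mulOp h g := by
  refine op_ext fun ξ q => ?_
  simp [add_mul]

lemma mulOp_sub (h : X ≃ₜ X) (f g : C(X, ℂ)) : mulOp h (f - g) = mulOp h f - mulOp h g := by
  refine op_ext fun ξ q => ?_
  simp [sub_mul]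

lemma mulOp_smul (h : X ≃ₜ X) (c : ℂ) (f : C(X, ℂ)) : mulOp h (c • f) = c • mulOp h f := by
  refine op_ext fun ξ q => ?_
  simp [mul_assoc]

@[simp] lemma mulOp_one (h : X ≃ₜ X) : mulOp h 1 = 1 := by
  refine op_ext fun ξ q => ?_
  simp

@[simp] lemma mulOp_zero (h : X ≃ₜ X) : mulOp h 0 = 0 := by
  refine op_ext fun ξ q => ?_
  simp

lemma mulOp_star (h : X ≃ₜ X) (f : C(X, ℂ)) : mulOp h (star f) = star (mulOp h f) := by
  rw [ContinuousLinearMap.star_eq_adjoint]
  symm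
  refine wop_adjoint _ _ _ _ _ _ _ _ _ _ ?_ ?_
  · intro i _
    simp
  · intro i _
    simp

lemma norm_mulOp_le (h : X ≃ₜ X) (f : C(X, ℂ)) : ‖mulOp h f‖ ≤ ‖f‖ :=
  norm_wop_le _ _ _ _ _ (norm_nonneg f)

/-- The inverse shift. -/
def unshiftOp (X : Type*) : Op X :=
  wop (fun q : ℤ × X => (q.1 + 1, q.2)) (fun _ => 1) 1 (by simp)
    (by
      rintro ⟨p, x⟩ _ ⟨p', x'⟩ _ hab
      simp only [Prod.mk.injEq, add_left_inj] at hab
      ext <;> simp [hab])

omit [TopologicalSpace X] [CompactSpace X] in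
@[simp] lemma unshiftOp_apply (ξ : L2 (ℤ × X)) (q : ℤ × X) :
    unshiftOp X ξ q = ξ (q.1 + 1, q.2) := by simp [unshiftOp]

omit [TopologicalSpace X] [CompactSpace X] in
lemma star_shiftOp : star (shiftOp X) = unshiftOp X := by
  rw [ContinuousLinearMap.star_eq_adjoint]
  refine wop_adjoint _ _ _ _ _ _ _ _ _ _ ?_ ?_
  · intro i _
    simp
  · intro i _
    simp

omit [TopologicalSpace X] [CompactSpace X] in
lemma star_shiftOp_mul : star (shiftOp X) * shiftOp X = 1 := by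
  rw [star_shiftOp]
  refine op_ext fun ξ q => ?_
  rw [mul_apply_eq_comp, unshiftOp_apply]
  simp [shiftOp]

omit [TopologicalSpace X] [CompactSpace X] in
lemma shiftOp_mul_star : shiftOp X * star (shiftOp X) = 1 := by
  rw [star_shiftOp]
  refine op_ext fun ξ q => ?_
  rw [mul_apply_eq_comp]
  simp [shiftOp]

/-- The shift as a unitary. -/
def shiftU (X : Type*) : unitary (Op X) :=
  ⟨shiftOp X, by
    rw [Unitary.mem_iff]
    exact ⟨star_shiftOp_mul, shiftOp_mul_star⟩⟩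

/-- Integer powers of the shift. -/
def shiftZ (X : Type*) (m : ℤ) : Op X :=
  wop (fun q : ℤ × X => (q.1 - m, q.2)) (fun _ => 1) 1 (by simp)
    (by
      rintro ⟨p, x⟩ _ ⟨p', x'⟩ _ hab
      simp only [Prod.mk.injEq, sub_left_inj] at hab
      ext <;> simp [hab])

omit [TopologicalSpace X] [CompactSpace X] in
@[simp] lemma shiftZ_apply (m : ℤ) (ξ : L2 (ℤ × X)) (q : ℤ × X) :
    shiftZ X m ξ q = ξ (q.1 - m, q.2) := by simp [shiftZ]

omit [TopologicalSpace X] [CompactSpace X] in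
lemma shiftZ_zero : shiftZ X 0 = 1 := by
  refine op_ext fun ξ q => ?_
  simp

omit [TopologicalSpace X] [CompactSpace X] in
lemma shiftZ_one : shiftZ X 1 = shiftOp X := by
  refine op_ext fun ξ q => ?_
  simp [shiftOp]

omit [TopologicalSpace X] [CompactSpace X] in
lemma shiftZ_add (m n : ℤ) : shiftZ X (m + n) = shiftZ X m * shiftZ X n := by
  refine op_ext fun ξ q => ?_
  simp [sub_sub]

omit [TopologicalSpace X] [CompactSpace X] in
lemma star_shiftZ (m : ℤ) : star (shiftZ X m) = shiftZ X (-m) := by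
  rw [ContinuousLinearMap.star_eq_adjoint]
  refine wop_adjoint _ _ _ _ _ _ _ _ _ _ ?_ ?_
  · intro i _
    simp
  · intro i _
    simp

/-- Covariance: `u^m f = (f ∘ h^{-m}) u^m`. -/
lemma shiftZ_mul_mulOp (h : X ≃ₜ X) (m : ℤ) (f : C(X, ℂ)) :
    shiftZ X m * mulOp h f = mulOp h (f.comp ((h ^ (-m) : X ≃ₜ X) : C(X, X))) * shiftZ X m := by
  refine op_ext fun ξ q => ?_
  simp only [mul_apply_eq_comp, shiftZ_apply, mulOp_apply, ContinuousMap.comp_apply]
  congr 2
  change (h ^ (q.1 - m)) q.2 = (h ^ (-m)) ((h ^ q.1) q.2)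
  rw [← Homeomorph.mul_apply, ← zpow_add, neg_add_eq_sub]

/-- `f u^m = u^m (f ∘ h^m)`. -/
lemma mulOp_mul_shiftZ (h : X ≃ₜ X) (m : ℤ) (f : C(X, ℂ)) :
    mulOp h f * shiftZ X m = shiftZ X m * mulOp h (f.comp ((h ^ m : X ≃ₜ X) : C(X, X))) := by
  refine op_ext fun ξ q => ?_
  simp only [mul_apply_eq_comp, shiftZ_apply, mulOp_apply, ContinuousMap.comp_apply]
  congr 2
  change (h ^ q.1) q.2 = (h ^ m) ((h ^ (q.1 - m)) q.2)
  rw [← Homeomorph.mul_apply, ← zpow_add, add_sub_cancel]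

lemma mulOp_mem (h : X ≃ₜ X) (f : C(X, ℂ)) : mulOp h f ∈ crossSub h :=
  StarSubalgebra.le_topologicalClosure _ (StarAlgebra.subset_adjoin ℂ _ (Or.inl ⟨f, rfl⟩))

lemma shiftOp_mem (h : X ≃ₜ X) : shiftOp X ∈ crossSub h :=
  StarSubalgebra.le_topologicalClosure _ (StarAlgebra.subset_adjoin ℂ _ (Or.inr rfl))

lemma shiftZ_mem (h : X ≃ₜ X) (m : ℤ) : shiftZ X m ∈ crossSub h := by
  have hpos : ∀ n : ℕ, shiftZ X (n : ℤ) ∈ crossSub h := by
    intro n
    induction n with
    | zero => rw [Nat.cast_zero, shiftZ_zero]; exact one_mem _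
    | succ n ih =>
      rw [Nat.cast_succ, shiftZ_add, shiftZ_one]
      exact mul_mem ih (shiftOp_mem h)
  rcases Int.eq_nat_or_neg m with ⟨n, rfl | rfl⟩
  · exact hpos n
  · rw [← star_shiftZ]
    exact star_mem (hpos n)

/-- The inclusion of the crossed product into the bounded operators. -/
def val (h : X ≃ₜ X) : Cross h →⋆ₐ[ℂ] Op X := (crossSub h).subtype

lemma val_injective (h : X ≃ₜ X) : Function.Injective (val h) := Subtype.val_injective

lemma val_mem (h : X ≃ₜ X) (a : Cross h) : val h a ∈ crossSub h := a.2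

/-- Constructor for elements of the crossed product. -/
def mk (h : X ≃ₜ X) (T : Op X) (hT : T ∈ crossSub h) : Cross h := ⟨T, hT⟩

@[simp] lemma val_mk (h : X ≃ₜ X) (T : Op X) (hT : T ∈ crossSub h) : val h (mk h T hT) = T := rfl

lemma norm_val (h : X ≃ₜ X) (a : Cross h) : ‖val h a‖ = ‖a‖ := rfl

/-- The complexification of a real function. -/
def cpx (f : C(X, ℝ)) : C(X, ℂ) := ⟨fun x => (f x : ℂ), by fun_prop⟩

omit [CompactSpace X] in
@[simp] lemma cpx_apply (f : C(X, ℝ)) (x : X) : cpx f x = (f x : ℂ) := rfl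

/-- A complex function as an element of the crossed product. -/
def cfunC (h : X ≃ₜ X) (f : C(X, ℂ)) : Cross h := mk h (mulOp h f) (mulOp_mem h f)

/-- A real function as an element of the crossed product. -/
def cfun (h : X ≃ₜ X) (f : C(X, ℝ)) : Cross h := cfunC h (cpx f)

@[simp] lemma val_cfunC (h : X ≃ₜ X) (f : C(X, ℂ)) : val h (cfunC h f) = mulOp h f := rfl

@[simp] lemma val_cfun (h : X ≃ₜ X) (f : C(X, ℝ)) : val h (cfun h f) = mulOp h (cpx f) := rfl

lemma cfun_mul (h : X ≃ₜ X) (f g : C(X, ℝ)) : cfun h (f * g) = cfun h f * cfun h g := by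
  apply val_injective h
  have : cpx (f * g) = cpx f * cpx g := by ext x; simp
  rw [map_mul, val_cfun, val_cfun, val_cfun, this, mulOp_mul]

lemma cfun_add (h : X ≃ₜ X) (f g : C(X, ℝ)) : cfun h (f + g) = cfun h f + cfun h g := by
  apply val_injective h
  have : cpx (f + g) = cpx f + cpx g := by ext x; simp
  rw [map_add, val_cfun, val_cfun, val_cfun, this, mulOp_add]

lemma cfun_sub (h : X ≃ₜ X) (f g : C(X, ℝ)) : cfun h (f - g) = cfun h f - cfun h g := by
  apply val_injective h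
  have : cpx (f - g) = cpx f - cpx g := by ext x; simp
  rw [map_sub, val_cfun, val_cfun, val_cfun, this, mulOp_sub]

lemma cfun_smul (h : X ≃ₜ X) (c : ℝ) (f : C(X, ℝ)) : cfun h (c • f) = (c : ℂ) • cfun h f := by
  apply val_injective h
  have : cpx (c • f) = (c : ℂ) • cpx f := by ext x; simp
  rw [map_smul, val_cfun, val_cfun, this, mulOp_smul]

@[simp] lemma cfun_one (h : X ≃ₜ X) : cfun h 1 = 1 := by
  apply val_injective h
  have : cpx (1 : C(X, ℝ)) = 1 := by ext x; simp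
  rw [val_cfun, this, mulOp_one, map_one]

@[simp] lemma cfun_zero (h : X ≃ₜ X) : cfun h 0 = 0 := by
  apply val_injective h
  have : cpx (0 : C(X, ℝ)) = 0 := by ext x; simp
  rw [val_cfun, this, mulOp_zero, map_zero]

lemma cfun_sum (h : X ≃ₜ X) {ι : Type*} (s : Finset ι) (f : ι → C(X, ℝ)) :
    cfun h (∑ i ∈ s, f i) = ∑ i ∈ s, cfun h (f i) := by
  classical
  induction s using Finset.induction_on with
  | empty => simp
  | insert a s ha ih => rw [Finset.sum_insert ha, Finset.sum_insert ha, cfun_add, ih]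

lemma star_cfun (h : X ≃ₜ X) (f : C(X, ℝ)) : star (cfun h f) = cfun h f := by
  apply val_injective h
  have : star (cpx f) = cpx f := by ext x; simp
  rw [map_star, val_cfun, ← mulOp_star, this]

lemma cfun_nonneg (h : X ≃ₜ X) {f : C(X, ℝ)} (hf : ∀ x, 0 ≤ f x) : 0 ≤ cfun h f := by
  let g : C(X, ℝ) := ⟨fun x => Real.sqrt (f x), by fun_prop⟩
  have hg : f = g * g := by
    ext x
    simp [g, Real.mul_self_sqrt (hf x)]
  have h2 : cfun h f = star (cfun h g) * cfun h g := by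
    rw [star_cfun, ← cfun_mul, ← hg]
  rw [h2]
  exact star_mul_self_nonneg _

lemma cfun_mono (h : X ≃ₜ X) {f g : C(X, ℝ)} (hfg : ∀ x, f x ≤ g x) : cfun h f ≤ cfun h g := by
  rw [← sub_nonneg, ← cfun_sub]
  refine cfun_nonneg h fun x => ?_
  simpa using hfg x

lemma norm_cfun_le (h : X ≃ₜ X) {f : C(X, ℝ)} {C : ℝ} (hC : 0 ≤ C) (hf : ∀ x, |f x| ≤ C) :
    ‖cfun h f‖ ≤ C := by
  rw [← norm_val, val_cfun]
  refine (norm_mulOp_le h _).trans ?_
  rw [ContinuousMap.norm_le _ hC]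
  intro x
  simpa using hf x

/-- The powers of the canonical unitary as elements of the crossed product. -/
def uZ (h : X ≃ₜ X) (m : ℤ) : Cross h := mk h (shiftZ X m) (shiftZ_mem h m)

@[simp] lemma val_uZ (h : X ≃ₜ X) (m : ℤ) : val h (uZ h m) = shiftZ X m := rfl

lemma uZ_add (h : X ≃ₜ X) (m n : ℤ) : uZ h (m + n) = uZ h m * uZ h n := by
  apply val_injective h
  rw [map_mul, val_uZ, val_uZ, val_uZ, shiftZ_add]

@[simp] lemma uZ_zero (h : X ≃ₜ X) : uZ h 0 = 1 := by
  apply val_injective h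
  rw [val_uZ, shiftZ_zero, map_one]

lemma star_uZ (h : X ≃ₜ X) (m : ℤ) : star (uZ h m) = uZ h (-m) := by
  apply val_injective h
  rw [map_star, val_uZ, val_uZ, star_shiftZ]

/-- `u^m f = (f ∘ h^{-m}) u^m` for real functions, inside the crossed product. -/
lemma uZ_mul_cfun (h : X ≃ₜ X) (m : ℤ) (f : C(X, ℝ)) :
    uZ h m * cfun h f = cfun h (f.comp ((h ^ (-m) : X ≃ₜ X) : C(X, X))) * uZ h m := by
  apply val_injective h
  have := shiftZ_mul_mulOp h m (cpx f)
  have h2 : (cpx f).comp ((h ^ (-m) : X ≃ₜ X) : C(X, X))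
      = cpx (f.comp ((h ^ (-m) : X ≃ₜ X) : C(X, X))) := by
    ext x; simp
  rw [h2] at this
  simpa using this

lemma cfun_mul_uZ (h : X ≃ₜ X) (m : ℤ) (f : C(X, ℝ)) :
    cfun h f * uZ h m = uZ h m * cfun h (f.comp ((h ^ m : X ≃ₜ X) : C(X, X))) := by
  apply val_injective h
  have := mulOp_mul_shiftZ h m (cpx f)
  have h2 : (cpx f).comp ((h ^ m : X ≃ₜ X) : C(X, X))
      = cpx (f.comp ((h ^ m : X ≃ₜ X) : C(X, X))) := by
    ext x; simp
  rw [h2] at this
  simpa using this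

end model

/-! ## Matrices -/

section mats
variable {A : Type*}

/-- The diagonal matrix with constant diagonal entry `a`. -/
def dg [Zero A] (k : ℕ) (a : A) : Mat k A :=
  CStarMatrix.ofMatrix (Matrix.diagonal fun _ => a)

/-- The matrix with `(0,0)` entry `a` and other entries `0`. -/
def e00 [Zero A] (k : ℕ) (a : A) : Mat (k + 1) A :=
  CStarMatrix.ofMatrix (Matrix.of fun i j => if i = 0 ∧ j = 0 then a else 0)

end mats

section inc
variable {X : Type*} [TopologicalSpace X] [CompactSpace X]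

/-- The inclusion `M_k(C*(Z,X,h)) → M_k(B(l^2(Z x X)))`. -/
def inc (h : X ≃ₜ X) {k : ℕ} (a : Mat k (Cross h)) : Mat k (Op X) :=
  CStarMatrix.ofMatrix (Matrix.of fun i j => val h (a i j))

@[simp] lemma inc_apply (h : X ≃ₜ X) {k : ℕ} (a : Mat k (Cross h)) (i j : Fin k) :
    inc h a i j = val h (a i j) := rfl

/-- The inclusion `M_k(C*(Z,X,h)) → M_k(B(l^2(Z x X)))` as a homomorphism. -/
def incHom (h : X ≃ₜ X) (k : ℕ) : Mat k (Cross h) →⋆ₐ[ℂ] Mat k (Op X) where
  toFun := inc h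
  map_one' := by
    ext i j
    by_cases hij : i = j
    · subst hij; simp
    · simp [hij]
  map_mul' a b := by
    refine CStarMatrix.ext fun i j => ?_
    simp [CStarMatrix.mul_apply]
  map_zero' := by refine CStarMatrix.ext fun i j => ?_; simp
  map_add' a b := by refine CStarMatrix.ext fun i j => ?_; simp
  commutes' c := by
    refine CStarMatrix.ext fun i j => ?_
    rw [inc_apply, CStarMatrix.algebraMap_apply, CStarMatrix.algebraMap_apply]
    split_ifs
    · exact (val h).commutes c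
    · simp
  map_star' a := by
    refine CStarMatrix.ext fun i j => ?_
    simp only [inc_apply, CStarMatrix.star_apply, map_star]

@[simp] lemma incHom_apply (h : X ≃ₜ X) {k : ℕ} (a : Mat k (Cross h)) :
    incHom h k a = inc h a := rfl

lemma inc_injective (h : X ≃ₜ X) {k : ℕ} : Function.Injective (inc h (k := k)) := by
  intro a b hab
  refine CStarMatrix.ext fun i j => ?_
  apply val_injective h
  rw [← inc_apply, ← inc_apply, hab]

lemma norm_inc (h : X ≃ₜ X) {k : ℕ} (a : Mat k (Cross h)) : ‖inc h a‖ = ‖a‖ :=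
  NonUnitalStarAlgHom.norm_map (incHom h k) (inc_injective h) a

/-- The projection onto the coordinates `(p, x)` with `p = i` modulo `n`. -/
def projOp (X : Type*) (n : ℕ) (i : ZMod n) : Op X :=
  wop (fun q : ℤ × X => q) (fun q => if (q.1 : ZMod n) = i then 1 else 0) 1
    (by intro q; split_ifs <;> simp) (fun _ _ _ _ hab => hab)

omit [TopologicalSpace X] [CompactSpace X] in
@[simp] lemma projOp_apply (n : ℕ) (i : ZMod n) (ξ : L2 (ℤ × X)) (q : ℤ × X) :
    projOp X n i ξ q = (if (q.1 : ZMod n) = i then 1 else 0) * ξ q := rfl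

end inc

end Pool.Agent.Helper61.RC
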