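import Pool.Agent.Helper61.RC.Base

/-!
# Auxiliary definitions used in the modules
-/

open scoped ENNReal NNReal Topology CStarAlgebra ComplexOrder
open Filter

noncomputable section

namespace Pool.Agent.Helper61.RC

/-- `(x - δ)_+`. -/
def cut {M : Type*} [CStarAlgebra M] (δ : ℝ) (x : M) : M := fc (fun t => max (t - δ) 0) x

/-- `t ↦ min(1, t_+ / δ)`. -/
def ramp (δ : ℝ) : ℝ → ℝ := fun t => min 1 (max 0 t / δ)

/-- `tent w₀ s = (1 - dist(s, ℤ)/w₀)_+`. -/
def tent (w₀ s : ℝ) : ℝ := max 0 (1 - |s - round s| / w₀)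

section
variable {X : Type*}

/-- The `((0,x),(0,x))` matrix coefficient. -/
def Ex (T : Op X) (x : X) : ℂ :=
  haveI := Classical.decEq (ℤ × X)
  T (lp.single 2 ((0 : ℤ), x) 1) ((0 : ℤ), x)

/-- The operator `(S ξ)(p, x) = ξ(p + 1, h⁻¹ x)`, which commutes with the crossed product. -/
def swapOp [TopologicalSpace X] (h : X ≃ₜ X) : Op X :=
  wop (fun q : ℤ × X => (q.1 + 1, h.symm q.2)) (fun _ => 1) 1 (by simp)
    (by
      rintro ⟨p, x⟩ _ ⟨p', x'⟩ _ hab
      simp only [Prod.mk.injEq, add_left_inj, EmbeddingLike.apply_eq_iff_eq] at hab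
      ext <;> simp [hab])

/-- `(W_i ξ)(p, x) = ξ((p - i)/n, x)` if `n ∣ p - i`, and `0` otherwise. -/
def cosetW (X : Type*) (n : ℕ) (i : Fin n) : Op X :=
  wop (fun q : ℤ × X => ((q.1 - (i : ℕ)) / (n : ℤ), q.2))
    (fun q => if (n : ℤ) ∣ q.1 - (i : ℕ) then 1 else 0) 1
    (by intro q; split_ifs <;> simp)
    (by
      rintro ⟨p, x⟩ hp ⟨p', x'⟩ hp' hab
      simp only [Prod.mk.injEq] at hab
      simp only [ne_eq, ite_eq_right_iff, one_ne_zero, imp_false, not_not,
        Set.mem_ofPred_eq] at hp hp'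
      obtain ⟨c, hc⟩ := hp
      obtain ⟨c', hc'⟩ := hp'
      have hn : (n : ℤ) ≠ 0 := by
        have := i.pos
        omega
      rw [hc, hc', Int.mul_ediv_cancel_left _ hn, Int.mul_ediv_cancel_left _ hn] at hab
      have : p = p' := by
        have h1 := hab.1
        subst h1
        linarith
      exact Prod.ext this hab.2)

end

end Pool.Agent.Helper61.RC
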