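import Pool.Agent.Helper61.RC.Base2

/-!
# Diagonal matrices
-/

open scoped ENNReal NNReal Topology CStarAlgebra ComplexOrder
open Filter

set_option linter.unusedSectionVars false

noncomputable section

namespace Pool.Agent.Helper61.RC

section
variable {A : Type*} [CStarAlgebra A] [PartialOrder A] [StarOrderedRing A]

lemma dg_apply {A : Type*} [Zero A] {k : ℕ} (a : A) (i j : Fin k) :
    dg k a i j = if i = j then a else 0 := by
  simp [dg, CStarMatrix.ofMatrix_apply, Matrix.diagonal_apply]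

lemma dg_mul_apply {A : Type*} [NonUnitalNonAssocSemiring A] {k : ℕ} (a : A) (T : Mat k A)
    (i j : Fin k) : (dg k a * T) i j = a * T i j := by
  rw [CStarMatrix.mul_apply, Finset.sum_eq_single i]
  · simp [dg_apply]
  · intro l _ hl
    simp [dg_apply, Ne.symm hl]
  · intro hi
    exact absurd (Finset.mem_univ i) hi

lemma mul_dg_apply {A : Type*} [NonUnitalNonAssocSemiring A] {k : ℕ} (a : A) (T : Mat k A)
    (i j : Fin k) : (T * dg k a) i j = T i j * a := by
  rw [CStarMatrix.mul_apply, Finset.sum_eq_single j]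
  · simp [dg_apply]
  · intro l _ hl
    simp [dg_apply, hl]
  · intro hi
    exact absurd (Finset.mem_univ j) hi

/-- `a ↦ diag(a, ..., a)` as a homomorphism. -/
def dgHom (k : ℕ) : A →⋆ₐ[ℂ] Mat k A where
  toFun := dg k
  map_one' := by
    refine CStarMatrix.ext fun i j => ?_
    rw [dg_apply, CStarMatrix.one_apply]
  map_mul' a b := by
    refine CStarMatrix.ext fun i j => ?_
    rw [dg_mul_apply, dg_apply, dg_apply]
    split_ifs <;> simp
  map_zero' := by
    refine CStarMatrix.ext fun i j => ?_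
    simp [dg_apply]
  map_add' a b := by
    refine CStarMatrix.ext fun i j => ?_
    rw [CStarMatrix.add_apply, dg_apply, dg_apply, dg_apply]
    split_ifs <;> simp
  commutes' c := by
    refine CStarMatrix.ext fun i j => ?_
    rw [dg_apply, CStarMatrix.algebraMap_apply]
  map_star' a := by
    refine CStarMatrix.ext fun i j => ?_
    rw [CStarMatrix.star_apply, dg_apply, dg_apply]
    by_cases hij : i = j
    · simp [hij]
    · simp [hij, Ne.symm hij]

lemma dgHom_apply (k : ℕ) (a : A) : dgHom k a = dg k a := rfl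

lemma dg_mul (k : ℕ) (a b : A) : dg k (a * b) = dg k a * dg k b := map_mul (dgHom k) a b
lemma dg_add (k : ℕ) (a b : A) : dg k (a + b) = dg k a + dg k b := map_add (dgHom k) a b
lemma dg_sub (k : ℕ) (a b : A) : dg k (a - b) = dg k a - dg k b := map_sub (dgHom k) a b
lemma dg_one (k : ℕ) : dg k (1 : A) = 1 := map_one (dgHom k)
lemma dg_zero (k : ℕ) : dg k (0 : A) = 0 := map_zero (dgHom k)
lemma dg_star (k : ℕ) (a : A) : dg k (star a) = star (dg k a) := map_star (dgHom k) a
lemma dg_smul (k : ℕ) (c : ℂ) (a : A) : dg k (c • a) = c • dg k a := map_smul (dgHom k) c a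
lemma dg_sum (k : ℕ) {ι : Type*} (s : Finset ι) (f : ι → A) :
    dg k (∑ i ∈ s, f i) = ∑ i ∈ s, dg k (f i) := map_sum (dgHom k) f s

lemma norm_dg_le (k : ℕ) (a : A) : ‖dg k a‖ ≤ ‖a‖ :=
  NonUnitalStarAlgHom.norm_apply_le (dgHom k) a

lemma dg_nonneg (k : ℕ) {a : A} (ha : 0 ≤ a) : 0 ≤ dg k a := by
  rw [CStarAlgebra.nonneg_iff_eq_star_mul_self] at ha
  obtain ⟨b, rfl⟩ := ha
  rw [dg_mul, dg_star]
  exact star_mul_self_nonneg _

lemma dg_mono (k : ℕ) {a b : A} (hab : a ≤ b) : dg k a ≤ dg k b := by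
  have h1 := dg_nonneg k (sub_nonneg.2 hab)
  rw [dg_sub] at h1
  exact sub_nonneg.1 h1

end

section
variable {X : Type*} [TopologicalSpace X] [CompactSpace X]

lemma inc_dg (h : X ≃ₜ X) (k : ℕ) (a : Cross h) : inc h (dg k a) = dg k (val h a) := by
  refine CStarMatrix.ext fun i j => ?_
  rw [inc_apply, dg_apply, dg_apply]
  split_ifs <;> simp

end

end Pool.Agent.Helper61.RC
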