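import Pool.Agent.Helper14.RC.Combine
import Pool.Agent.Helper33.RC.Bumps
import Pool.Agent.Helper33.RC.Cutoff
import Pool.Agent.Helper33.RC.Phi
import Pool.Agent.Helper33.RC.Theta
import Pool.Agent.Helper56.RC.Slide
import Pool.Agent.Helper58.RC.Minimal

/-!
# The slowly varying phase functions and the remainder (RC-29)
-/

open scoped ENNReal NNReal Topology CStarAlgebra ComplexOrder
open Filter

noncomputable section

namespace Pool.Agent.Helper61.RC

section
variable {X : Type*} [MetricSpace X] [CompactSpace X]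

/-- Pairwise orthogonal numbers in `[0,1]`: the sum of squares is at most `1`. -/
lemma sum_sq_le_one {ι : Type*} [Fintype ι] (φ : ι → ℝ) (h01 : ∀ i, 0 ≤ φ i ∧ φ i ≤ 1)
    (horth : ∀ i j, i ≠ j → φ i * φ j = 0) : ∑ i, φ i ^ 2 ≤ 1 := by
  classical
  by_cases hex : ∃ i, φ i ≠ 0
  · obtain ⟨i, hi⟩ := hex
    rw [Finset.sum_eq_single i]
    · have := h01 i
      nlinarith
    · intro j _ hj
      have := horth j i hj
      rcases mul_eq_zero.1 this with h | h
      · simp [h]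
      · exact absurd h hi
    · intro h
      exact absurd (Finset.mem_univ i) h
  · push Not at hex
    simp [hex]

lemma continuous_tent (w₀ : ℝ) : Continuous (tent w₀) := by
  have h1 : Continuous fun s : ℝ => |s - round s| := by
    have : (fun s : ℝ => |s - round s|) = fun s : ℝ => ‖(s : UnitAddCircle)‖ := by
      ext s
      rw [UnitAddCircle.norm_eq]
    rw [this]
    exact continuous_norm.comp (AddCircle.continuous_mk' 1)
  unfold tent
  fun_prop

lemma tent_nonneg_aux (w₀ s : ℝ) : 0 ≤ tent w₀ s := le_max_left _ _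

/-- Visits of the forward orbit of `y₀` to an open set along a strictly increasing sequence. -/
lemma exists_visits (h : X ≃ₜ X) (hmin : MinimalHomeo h) (O : Set X) (hO : IsOpen O)
    (hne : O.Nonempty) (y : X) : ∃ a : ℕ → ℤ, StrictMono a ∧ ∀ i, (h ^ a i) y ∈ O := by
  choose f hf1 hf2 using exists_visit_after h hmin O hO hne y
  let a : ℕ → ℤ := fun i => Nat.rec (f 0) (fun _ b => f (b + 1)) i
  have ha : ∀ i, a (i + 1) = f (a i + 1) := fun i => rfl
  refine ⟨a, strictMono_nat_of_lt_succ fun i => ?_, fun i => ?_⟩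
  · rw [ha]
    have := hf1 (a i + 1)
    omega
  · cases i with
    | zero => exact hf2 0
    | succ i => rw [ha]; exact hf2 _

omit [CompactSpace X] in
/-- For a non-fixed point of `g`, small balls are moved off themselves. -/
lemma exists_ball_disjoint (g : X ≃ₜ X) (y : X) (hy : g y ≠ y) :
    ∃ r : ℝ, 0 < r ∧ ∀ x ∈ Metric.ball y r, g x ∉ Metric.ball y r := by
  have hd : 0 < dist (g y) y := dist_pos.2 hy
  have hc : ContinuousAt g y := g.continuous.continuousAt
  obtain ⟨r, hr, hr'⟩ := Metric.continuousAt_iff.1 hc (dist (g y) y / 2) (by positivity)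
  refine ⟨min r (dist (g y) y / 2), by positivity, fun x hx hgx => ?_⟩
  rw [Metric.mem_ball] at hx hgx
  have h1 := hr' (hx.trans_le (min_le_left _ _))
  have h2 : dist (g x) y < dist (g y) y / 2 := hgx.trans_le (min_le_right _ _)
  have h3 : dist (g y) y ≤ dist (g y) (g x) + dist (g x) y := dist_triangle _ _ _
  rw [dist_comm (g y) (g x)] at h3
  linarith

theorem exists_phase [Infinite X] (h : X ≃ₜ X) (hmin : MinimalHomeo h) (n : ℕ) [NeZero n]
    (k : ℕ) (ω : C(X, ℝ)) (hω0 : ∀ x, 0 ≤ ω x) (hω : ∃ x, 0 < ω x) (ε : ℝ) (hε : 0 < ε) :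
    ∃ G : ZMod n → C(X, ℝ), (∀ i x, 0 ≤ G i x ∧ G i x ≤ 1) ∧
      (∀ i j, i ≠ j → ∀ x, G i x * G j x = 0) ∧
      (∀ i x, |G i (h x) - G (i - 1) x| ≤ ε) ∧
      CuntzLE (dg (k + 1) (cfun h (1 - ∑ i, G i * G i))) (e00 k (cfun h ω)) := by
  classical
  have hfree := free_of_minimal h hmin
  obtain ⟨ρ, hρ0, hρpos, hρorth, C, hC, hρC⟩ := exists_bumps h hmin ω hω0 hω ((k + 1) + (k + 1))
  set w₁ : Fin (k + 1) → C(X, ℝ) := fun l => ρ (Fin.castAdd (k + 1) l) with hw₁
  set w₂ : Fin (k + 1) → C(X, ℝ) := fun l => ρ (Fin.natAdd (k + 1) l) with hw₂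
  -- return times to the first family
  have hret : ∀ l, ∃ c : ℝ, 0 < c ∧ ∃ N : ℕ, ∀ x, ∃ j : ℕ, j < N ∧ c ≤ w₁ l ((h ^ (j : ℤ)) x) := by
    intro l
    obtain ⟨x₁, hx₁⟩ := hρpos (Fin.castAdd (k + 1) l)
    obtain ⟨N, hN⟩ := exists_return h hmin {x | w₁ l x₁ / 2 < w₁ l x}
      (isOpen_lt continuous_const (w₁ l).continuous) ⟨x₁, by
        have : 0 < w₁ l x₁ := hx₁
        simp only [Set.mem_ofPred_eq]; linarith⟩
    refine ⟨w₁ l x₁ / 2, by have : 0 < w₁ l x₁ := hx₁; positivity, N, fun x => ?_⟩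
    obtain ⟨j, hj, hj'⟩ := hN x
    exact ⟨j, hj, le_of_lt hj'⟩
  choose cl hcl Nl hNl using hret
  obtain ⟨c, hc, hcle⟩ : ∃ c : ℝ, 0 < c ∧ ∀ l, c ≤ cl l := by
    refine ⟨Finset.univ.inf' ⟨0, Finset.mem_univ _⟩ cl, ?_, fun l => Finset.inf'_le _ (Finset.mem_univ l)⟩
    rw [Finset.lt_inf'_iff]
    exact fun l _ => hcl l
  set L : ℕ := 1 + ∑ l, Nl l with hL
  have hLge : ∀ l, Nl l ≤ L := fun l => by
    have := Finset.single_le_sum (f := Nl) (fun i _ => Nat.zero_le _) (Finset.mem_univ l)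
    omega
  have hL1 : 1 ≤ L := by omega
  have hreturn : ∀ l x, ∃ j : ℕ, j < L ∧ c ≤ w₁ l ((h ^ (j : ℤ)) x) := by
    intro l x
    obtain ⟨j, hj, hj'⟩ := hNl l x
    exact ⟨j, hj.trans_le (hLge l), (hcle l).trans hj'⟩
  -- parameters
  set w₀ : ℝ := 1 / (8 * ((L : ℝ) + 2)) with hw₀
  have hw₀pos : 0 < w₀ := by positivity
  set κ : ℝ := min (ε * w₀ / 2) w₀ with hκ
  have hκpos : 0 < κ := by positivity
  have hκ1 : κ ≤ ε * w₀ / 2 := min_le_left _ _
  have hκ2 : κ ≤ w₀ := min_le_right _ _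
  have hLw : ((L : ℝ) + 2) * w₀ = 1 / 8 := by
    rw [hw₀]; field_simp
  have hLpos : (0 : ℝ) ≤ L := Nat.cast_nonneg L
  have hpar : 2 * ((L : ℝ) + 1) * w₀ + 2 * ((L : ℝ) + 1) * κ + 2 * w₀ < 1 := by
    have h1 : 2 * ((L : ℝ) + 1) * κ ≤ 2 * ((L : ℝ) + 1) * w₀ := by gcongr
    nlinarith
  set R : ℕ := ⌈2 * (((L : ℝ) + 1) * w₀ / κ + L + 1)⌉₊ + 1 with hR
  have hRge : 2 * (((L : ℝ) + 1) * w₀ / κ + L + 1) ≤ (R : ℝ) := by
    rw [hR]; push_cast
    linarith [Nat.le_ceil (2 * (((L : ℝ) + 1) * w₀ / κ + L + 1))]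
  have hR1 : 1 ≤ R := by omega
  set R₀ : ℕ := ⌈2 / ε⌉₊ + 1 with hR₀
  have hR₀1 : 1 ≤ R₀ := by omega
  have hR₀inv : 1 / (R₀ : ℝ) ≤ ε / 2 := by
    have h1 : 2 / ε ≤ (R₀ : ℝ) := by
      rw [hR₀]; push_cast
      linarith [Nat.le_ceil (2 / ε)]
    have h2 : (0 : ℝ) < R₀ := by positivity
    rw [div_le_div_iff₀ h2 (by norm_num)]
    rw [div_le_iff₀ hε] at h1
    linarith
  set J : ℕ := R + R₀ with hJ
  -- the base point and the visits to the second family
  obtain ⟨y₀⟩ : Nonempty X := inferInstance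
  have hvis : ∀ l, ∃ a : ℕ → ℤ, StrictMono a ∧ ∀ i, 0 < w₂ l ((h ^ a i) y₀) := by
    intro l
    obtain ⟨x₂, hx₂⟩ := hρpos (Fin.natAdd (k + 1) l)
    obtain ⟨a, ha, ha'⟩ := exists_visits h hmin {x | 0 < w₂ l x}
      (isOpen_lt continuous_const (w₂ l).continuous) ⟨x₂, hx₂⟩ y₀
    exact ⟨a, ha, ha'⟩
  choose a ha ha' using hvis
  set m : Fin (k + 1) → ℤ → ℤ := fun l j => a l (j + J).toNat with hm
  have hminj : ∀ l, ∀ j ∈ Finset.Icc (-(J : ℤ)) J, ∀ j' ∈ Finset.Icc (-(J : ℤ)) J, j ≠ j' →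
      m l j ≠ m l j' := by
    intro l j hj j' hj' hne heq
    have h1 := (ha l).injective heq
    rw [Finset.mem_Icc] at hj hj'
    omega
  -- a lower bound for the second family
  obtain ⟨c₂, hc₂, hc₂le⟩ : ∃ c₂ : ℝ, 0 < c₂ ∧ ∀ l, ∀ j ∈ Finset.Icc (-(J : ℤ)) J,
      2 * c₂ ≤ w₂ l ((h ^ m l j) y₀) := by
    have hne : ((Finset.univ : Finset (Fin (k + 1))) ×ˢ Finset.Icc (-(J : ℤ)) J).Nonempty :=
      ⟨(0, 0), by simp⟩
    refine ⟨(((Finset.univ : Finset (Fin (k + 1))) ×ˢ Finset.Icc (-(J : ℤ)) J).inf' hne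
      (fun p => w₂ p.1 ((h ^ m p.1 p.2) y₀))) / 2, ?_, ?_⟩
    · have : 0 < (((Finset.univ : Finset (Fin (k + 1))) ×ˢ Finset.Icc (-(J : ℤ)) J).inf' hne
        (fun p => w₂ p.1 ((h ^ m p.1 p.2) y₀))) := by
        rw [Finset.lt_inf'_iff]
        exact fun p _ => ha' p.1 _
      positivity
    · intro l j hj
      have := Finset.inf'_le (fun p : Fin (k + 1) × ℤ => w₂ p.1 ((h ^ m p.1 p.2) y₀))
        (b := (l, j)) (Finset.mem_product.2 ⟨Finset.mem_univ l, hj⟩)
      simp only at this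
      linarith
  -- the radius
  have hev1 : ∀ᶠ r in 𝓝[>] (0 : ℝ), ∀ l, ∀ j ∈ Finset.Icc (-(J : ℤ)) J,
      ∀ x ∈ Metric.ball y₀ r, c₂ ≤ w₂ l ((h ^ m l j) x) := by
    rw [Filter.eventually_all]
    intro l
    rw [Filter.eventually_all_finset]
    intro j hj
    have hcont : Continuous fun x => w₂ l ((h ^ m l j) x) :=
      (w₂ l).continuous.comp (h ^ m l j).continuous
    have hopen : IsOpen {x | c₂ < w₂ l ((h ^ m l j) x)} := isOpen_lt continuous_const hcont
    have hmem : y₀ ∈ {x | c₂ < w₂ l ((h ^ m l j) x)} := by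
      have := hc₂le l j hj
      simp only [Set.mem_ofPred_eq]; linarith
    obtain ⟨r, hr, hr'⟩ := Metric.isOpen_iff.1 hopen y₀ hmem
    filter_upwards [Ioo_mem_nhdsGT hr] with r₁ hr₁ x hx
    exact le_of_lt (hr' (Metric.ball_subset_ball hr₁.2.le hx))
  have hev2 : ∀ᶠ r in 𝓝[>] (0 : ℝ), ∀ l, ∀ j ∈ Finset.Icc (-(J : ℤ)) J,
      ∀ j' ∈ Finset.Icc (-(J : ℤ)) J, j ≠ j' → ∀ x ∈ Metric.ball y₀ r,
        (h ^ (m l j - m l j')) x ∉ Metric.ball y₀ r := by
    rw [Filter.eventually_all]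
    intro l
    rw [Filter.eventually_all_finset]
    intro j hj
    rw [Filter.eventually_all_finset]
    intro j' hj'
    by_cases hne : j = j'
    · exact Filter.Eventually.of_forall fun r h => absurd hne h
    obtain ⟨r, hr, hr'⟩ := exists_ball_disjoint (h ^ (m l j - m l j')) y₀
      (hfree _ (sub_ne_zero.2 (hminj l j hj j' hj' hne)) y₀)
    filter_upwards [Ioo_mem_nhdsGT hr] with r₁ hr₁ _ x hx hx'
    exact hr' x (Metric.ball_subset_ball hr₁.2.le hx) (Metric.ball_subset_ball hr₁.2.le hx')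
  obtain ⟨r, ⟨hr1, hr2⟩, hr⟩ := ((hev1.and hev2).and self_mem_nhdsWithin).exists
  have hrpos : 0 < r := hr
  -- the bump functions
  let wp : C(X, ℝ) := ⟨fun x => min 1 (max 0 (2 - 3 * dist x y₀ / r)), by fun_prop⟩
  let w : C(X, ℝ) := ⟨fun x => max 0 (1 - 3 * dist x y₀ / r), by fun_prop⟩
  have hwp01 : ∀ x, 0 ≤ wp x ∧ wp x ≤ 1 := fun x =>
    ⟨le_min zero_le_one (le_max_left _ _), min_le_left _ _⟩
  have hw01 : ∀ x, 0 ≤ w x ∧ w x ≤ 1 := fun x =>
    ⟨le_max_left _ _, max_le zero_le_one (by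
      have : 0 ≤ 3 * dist x y₀ / r := by positivity
      linarith)⟩
  have hwwp : ∀ x, 0 < w x → wp x = 1 := by
    intro x hx
    have h1 : 3 * dist x y₀ / r < 1 := by
      by_contra hcon
      push Not at hcon
      have : w x = 0 := max_eq_left (by linarith)
      linarith
    change min 1 (max 0 (2 - 3 * dist x y₀ / r)) = 1
    rw [min_eq_left]
    exact le_max_of_le_right (by linarith)
  have hwpball : ∀ x, 0 < wp x → x ∈ Metric.ball y₀ r := by
    intro x hx
    rw [Metric.mem_ball]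
    by_contra hcon
    push Not at hcon
    have h1 : 3 ≤ 3 * dist x y₀ / r := by
      rw [le_div_iff₀ hrpos]; linarith
    have : wp x = 0 := by
      change min 1 (max 0 (2 - 3 * dist x y₀ / r)) = 0
      rw [max_eq_left (by linarith)]
      simp
    linarith
  have hwpzero : ∀ x, x ∉ Metric.ball y₀ r → wp x = 0 := by
    intro x hx
    by_contra hne
    exact hx (hwpball x (lt_of_le_of_ne (hwp01 x).1 (Ne.symm hne)))
  have hwy : w y₀ = 1 := by
    change max 0 (1 - 3 * dist y₀ y₀ / r) = 1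
    simp
  obtain ⟨N, hN⟩ := exists_return_back h hmin {x | 1 / 2 < w x}
    (isOpen_lt continuous_const w.continuous) ⟨y₀, by
      simp only [Set.mem_ofPred_eq, hwy]; norm_num⟩
  obtain ⟨θ, hθ⟩ := exists_theta h w hw01 N (fun x => by
    obtain ⟨j, hj, hj'⟩ := hN x
    exact ⟨j, hj, le_of_lt hj'⟩)
  obtain ⟨g, hg01, hgslow, hgzero, hgle⟩ := exists_cutoff h wp hwp01 R R₀ hR₀1
  obtain ⟨φ, hφ01, hφlip, hφorth, hφper, hφsum⟩ := exists_phi n w₀ hw₀pos
  let s : C(X, ℝ) := (1 + κ) • θ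
  have hsx : ∀ x, s x = (1 + κ) * θ x := fun x => rfl
  -- claim A
  have hA : ∀ x, 0 < g x → ∀ j : ℤ, |j| ≤ R → w ((h ^ j) x) = 0 := by
    intro x hx j hj
    by_contra hne
    have h1 := hwwp _ (lt_of_le_of_ne (hw01 _).1 (Ne.symm hne))
    have h2 := hgzero x j hj h1
    linarith
  have hθ' : ∀ x, w (h x) = 0 → θ (h x) = 1 + θ x := by
    intro x hx
    rw [hθ, hx]; ring
  have hhzadd : ∀ (p q : ℤ) (x : X), (h ^ (p + q)) x = (h ^ p) ((h ^ q) x) := by
    intro p q x
    rw [zpow_add]; rfl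
  have hBpos : ∀ x, 0 < g x → ∀ j : ℕ, j ≤ R → θ ((h ^ (j : ℤ)) x) = θ x + j := by
    intro x hx j
    induction j with
    | zero => intro _; simp
    | succ j ih =>
      intro hj
      have h1 := ih (by omega)
      have h2 : (h ^ ((j + 1 : ℕ) : ℤ)) x = h ((h ^ (j : ℤ)) x) := by
        rw [Nat.cast_succ, add_comm, hhzadd, zpow_one]
      have h3 := hA x hx ((j + 1 : ℕ) : ℤ) (by rw [abs_of_nonneg (by positivity)]; exact_mod_cast hj)
      rw [h2] at h3 ⊢
      rw [hθ' _ h3, h1]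
      push_cast; ring
  have hBneg : ∀ x, 0 < g x → ∀ j : ℕ, j ≤ R → θ ((h ^ (-(j : ℤ))) x) = θ x - j := by
    intro x hx j
    induction j with
    | zero => intro _; simp
    | succ j ih =>
      intro hj
      have h1 := ih (by omega)
      have h2 : (h ^ (-(j : ℤ))) x = h ((h ^ (-((j + 1 : ℕ) : ℤ))) x) := by
        have : (-(j : ℤ)) = 1 + (-((j + 1 : ℕ) : ℤ)) := by push_cast; ring
        rw [this, hhzadd, zpow_one]
      have h3 := hA x hx (-(j : ℤ)) (by rw [abs_neg, abs_of_nonneg (by positivity)]; omega)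
      rw [h2] at h3 h1
      rw [hθ' _ h3] at h1
      push_cast at h1 ⊢
      linarith
  have hB : ∀ x, 0 < g x → ∀ j : ℤ, |j| ≤ R → s ((h ^ j) x) = s x + j * (1 + κ) := by
    intro x hx j hj
    rw [hsx, hsx]
    rcases Int.eq_nat_or_neg j with ⟨i, rfl | rfl⟩
    · rw [hBpos x hx i (by rw [abs_of_nonneg (by positivity)] at hj; exact_mod_cast hj)]
      push_cast; ring
    · rw [hBneg x hx i (by rw [abs_neg, abs_of_nonneg (by positivity)] at hj; exact_mod_cast hj)]
      push_cast; ring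
  -- the functions
  have hφcont : ∀ i, Continuous (φ i) := by
    intro i
    have : LipschitzWith (Real.toNNReal (1 / w₀)) (φ i) := by
      refine LipschitzWith.of_dist_le_mul fun s t => ?_
      rw [Real.dist_eq, Real.dist_eq, Real.coe_toNNReal _ (by positivity)]
      have := hφlip i s t
      rw [div_eq_inv_mul] at this
      rw [one_div]; exact this
    exact this.continuous
  let G : ZMod n → C(X, ℝ) := fun i => ⟨fun x => φ i (s x) * g x, by
    exact ((hφcont i).comp s.continuous).mul g.continuous⟩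
  have hGx : ∀ i x, G i x = φ i (s x) * g x := fun i x => rfl
  have hG01 : ∀ i x, 0 ≤ G i x ∧ G i x ≤ 1 := by
    intro i x
    rw [hGx]
    have h1 := hφ01 i (s x)
    have h2 := hg01 x
    exact ⟨mul_nonneg h1.1 h2.1, mul_le_one₀ h1.2 h2.1 h2.2⟩
  have hGorth : ∀ i j, i ≠ j → ∀ x, G i x * G j x = 0 := by
    intro i j hij x
    rw [hGx, hGx]
    have := hφorth i j hij (s x)
    calc φ i (s x) * g x * (φ j (s x) * g x) = (φ i (s x) * φ j (s x)) * (g x * g x) := by ring
      _ = 0 := by rw [this, zero_mul]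
  refine ⟨G, hG01, hGorth, ?_, ?_⟩
  · intro i x
    rcases (hw01 (h x)).1.lt_or_eq with hpos | hzero
    · have h1 := hwwp _ hpos
      have hg1 : g (h x) = 0 := hgzero (h x) 0 (by simp) (by simpa using h1)
      have hg2 : g x = 0 := hgzero x 1 (by simpa using hR1) (by simpa using h1)
      rw [hGx, hGx, hg1, hg2]
      simp [hε.le]
    · have h1 : s (h x) = (s x + κ) + 1 := by
        rw [hsx, hsx, hθ' x hzero.symm]; ring
      rw [hGx, hGx, h1, hφper]
      have h2 := hφlip (i - 1) (s x + κ) (s x)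
      rw [add_sub_cancel_left, abs_of_pos hκpos] at h2
      have h3 := hgslow x
      have h4 := hφ01 (i - 1) (s x)
      have h5 := hg01 (h x)
      have h6 : κ / w₀ ≤ ε / 2 := by
        rw [div_le_iff₀ hw₀pos]; linarith
      calc |φ (i - 1) (s x + κ) * g (h x) - φ (i - 1) (s x) * g x|
          = |(φ (i - 1) (s x + κ) - φ (i - 1) (s x)) * g (h x)
            + φ (i - 1) (s x) * (g (h x) - g x)| := by ring_nf
        _ ≤ |(φ (i - 1) (s x + κ) - φ (i - 1) (s x)) * g (h x)|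
            + |φ (i - 1) (s x) * (g (h x) - g x)| := abs_add_le _ _
        _ ≤ κ / w₀ * 1 + 1 * (1 / (R₀ : ℝ)) := by
            rw [abs_mul, abs_mul, abs_of_nonneg h5.1, abs_of_nonneg h4.1]
            exact add_le_add (mul_le_mul h2 h5.2 h5.1 (by positivity))
              (mul_le_mul h4.2 h3 (abs_nonneg _) zero_le_one)
        _ ≤ ε := by linarith
  · -- the remainder
    let T : C(X, ℝ) := ⟨fun x => tent w₀ (s x) * g x, by
      exact ((continuous_tent w₀).comp s.continuous).mul g.continuous⟩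
    have hT : ∀ x, T x = tent w₀ (s x) * g x := fun x => rfl
    let U : C(X, ℝ) := ∑ j ∈ Finset.Icc (-(J : ℤ)) J, wp.comp ((h ^ j : X ≃ₜ X) : C(X, X))
    have hU : ∀ x, U x = ∑ j ∈ Finset.Icc (-(J : ℤ)) J, wp ((h ^ j) x) := by
      intro x
      simp [U, ContinuousMap.coe_sum, Finset.sum_apply]
    have hsumG : ∀ x, (1 - ∑ i, G i * G i : C(X, ℝ)) x = 1 - ∑ i, (φ i (s x)) ^ 2 * (g x) ^ 2 := by
      intro x
      simp only [ContinuousMap.sub_apply, ContinuousMap.one_apply, ContinuousMap.coe_sum,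
        Finset.sum_apply, ContinuousMap.mul_apply, hGx]
      congr 1
      refine Finset.sum_congr rfl fun i _ => ?_
      ring
    have hr0 : ∀ x, 0 ≤ (1 - ∑ i, G i * G i : C(X, ℝ)) x := by
      intro x
      rw [hsumG, ← Finset.sum_mul]
      have h1 := sum_sq_le_one (fun i => φ i (s x)) (fun i => hφ01 i (s x))
        (fun i j hij => hφorth i j hij (s x))
      have h2 := hg01 x
      have h3 : 0 ≤ ∑ i, φ i (s x) ^ 2 := Finset.sum_nonneg fun i _ => sq_nonneg _
      have h4 : (g x) ^ 2 ≤ 1 := by nlinarith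
      have h5 : 0 ≤ (g x) ^ 2 := sq_nonneg _
      nlinarith
    have hrle : ∀ x, (1 - ∑ i, G i * G i : C(X, ℝ)) x ≤ 2 * (T x + U x) := by
      intro x
      rw [hsumG, ← Finset.sum_mul, hT, hU]
      have h1 := hφsum (s x)
      have h2 := hg01 x
      have h3 : 1 - g x ≤ ∑ j ∈ Finset.Icc (-(J : ℤ)) J, wp ((h ^ j) x) := hgle x
      have h4 := tent_nonneg_aux w₀ (s x)
      have h5 : 0 ≤ (g x) ^ 2 := sq_nonneg _
      have h6 : (1 - 2 * tent w₀ (s x)) * (g x) ^ 2 ≤ (∑ i, φ i (s x) ^ 2) * (g x) ^ 2 := by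
        gcongr
        linarith
      have h7 : tent w₀ (s x) * (g x) ^ 2 ≤ tent w₀ (s x) * g x := by
        gcongr
        nlinarith
      nlinarith
    have hC2 : 0 < max C 2 := by positivity
    refine combine k (cfun h (1 - ∑ i, G i * G i)) (cfun h ω) (cfun h T) (cfun h U)
      (fun l => cfun h (w₁ l)) (fun l => cfun h (w₂ l)) (max C 2) hC2 (cfun_nonneg h hr0)
      (cfun_nonneg h fun x => ?_) (cfun_nonneg h fun x => ?_) ?_ ?_ ?_ ?_ ?_ ?_ ?_ ?_ ?_
    · rw [hT]
      exact mul_nonneg (tent_nonneg_aux _ _) (hg01 x).1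
    · rw [hU]
      exact Finset.sum_nonneg fun j _ => (hwp01 _).1
    · rw [← cfun_add, ← cfun_smul]
      refine cfun_mono h fun x => ?_
      have h1 := hrle x
      have h2 : 0 ≤ T x + U x := by
        have ha : 0 ≤ T x := by
          rw [hT]
          exact mul_nonneg (tent_nonneg_aux _ _) (hg01 x).1
        have hb : 0 ≤ U x := by
          rw [hU]
          exact Finset.sum_nonneg fun j _ => (hwp01 _).1
        linarith
      calc (1 - ∑ i, G i * G i : C(X, ℝ)) x ≤ 2 * (T x + U x) := h1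
        _ ≤ max C 2 * (T x + U x) := by
            gcongr
            exact le_max_right _ _
        _ = (max C 2 • (T + U)) x := rfl
    · intro l
      exact disperse_slide h s g (w₁ l) T κ w₀ c hκpos hw₀pos hc L R hL1 hpar hRge hg01 hB hT
        (fun x => hρ0 _ x) (hreturn l)
    · intro l
      refine disperse_finite h J wp (w₂ l) (fun x => (hwp01 x).1) (m l) c₂ hc₂ ?_ ?_
      · intro j hj x hx
        exact hr1 l j hj x (hwpball x hx)
      · intro j hj j' hj' hne x hx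
        exact hwpzero _ (hr2 l j hj j' hj' hne x (hwpball x hx))
    · intro l
      exact cfun_nonneg h fun x => hρ0 _ x
    · intro l
      exact cfun_nonneg h fun x => hρ0 _ x
    · intro l l' hne
      rw [← cfun_mul, ← cfun_zero h]
      congr 1
      ext x
      exact hρorth _ _ (fun he => hne (by simpa using he)) x
    · intro l l' hne
      rw [← cfun_mul, ← cfun_zero h]
      congr 1
      ext x
      exact hρorth _ _ (fun he => hne (by simpa using he)) x
    · intro l l'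
      rw [← cfun_mul, ← cfun_zero h]
      congr 1
      ext x
      refine hρorth _ _ (fun he => ?_) x
      have := congrArg Fin.val he
      simp only [Fin.val_castAdd, Fin.val_natAdd] at this
      omega
    · have h1 : ∑ l, (cfun h (w₁ l) + cfun h (w₂ l)) = cfun h (∑ l, (w₁ l + w₂ l)) := by
        rw [cfun_sum]
        exact Finset.sum_congr rfl fun l _ => (cfun_add h _ _).symm
      rw [h1, ← cfun_smul]
      refine cfun_mono h fun x => ?_
      have h2 := hρC x
      rw [Fin.sum_univ_add, ← Finset.sum_add_distrib] at h2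
      have h3 : (∑ l, (w₁ l + w₂ l) : C(X, ℝ)) x
          = ∑ l, (ρ (Fin.castAdd (k + 1) l) x + ρ (Fin.natAdd (k + 1) l) x) := by
        simp [ContinuousMap.coe_sum, Finset.sum_apply, hw₁, hw₂]
      rw [h3]
      refine h2.trans ?_
      change C * ω x ≤ max C 2 * ω x
      have := hω0 x
      gcongr
      exact le_max_left _ _

end

end Pool.Agent.Helper61.RC
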