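import Pool.Agent.Helper61.RC.DG
import Pool.Agent.Helper61.RC.Phase
import Pool.Agent.Helper14.RC.FunCuntz
import Pool.Agent.Helper20.RC.Swap
import Pool.Agent.Helper51.RD.Fc
import Pool.Agent.Helper70.RC.CommSmall
import Pool.Agent.Helper70.RC.Gap
import Pool.Agent.Helper61.RC.Averaging
import Pool.Agent.Helper79.RC.SplitFun
import Pool.Agent.Helper95.RC.Lift

/-!
# Assembly: comparison passes from the power to the homeomorphism
-/

open scoped ENNReal NNReal Topology CStarAlgebra ComplexOrder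
open Filter

set_option linter.unusedSectionVars false

noncomputable section

namespace Pool.Agent.Helper61.RC

section
variable {A : Type*} [CStarAlgebra A] [PartialOrder A] [StarOrderedRing A]

lemma le_dTr (τ : TracialState A) {k : ℕ} {b : Mat k A} (hb : 0 ≤ b) (hb1 : b ≤ 1) :
    (τ.mat b).re ≤ dTr τ b :=
  le_dRho (M := Mat k A) τ.mat (fun a => τ.mat_pos a) hb hb1

lemma dTr_nonneg' (τ : TracialState A) {k : ℕ} {b : Mat k A} (hb : 0 ≤ b) :
    0 ≤ dTr τ b :=
  dRho_nonneg (M := Mat k A) τ.mat (fun a => τ.mat_pos a) hb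

lemma dTr_zero' (τ : TracialState A) {k : ℕ} : dTr τ (0 : Mat k A) = 0 :=
  dRho_zero (M := Mat k A) τ.mat

lemma dTr_cut_le (τ : TracialState A) {k : ℕ} {a : Mat k A} (ha : 0 ≤ a) {ε : ℝ} (hε : 0 < ε) :
    dTr τ (cut ε a) ≤ (τ.mat (fc (ramp ε) a)).re :=
  dRho_cut_le (M := Mat k A) τ.mat (fun a => τ.mat_pos a) ha hε

lemma ramp_le_dTr (τ : TracialState A) {k : ℕ} {a : Mat k A} (ha : 0 ≤ a) {ε : ℝ} (hε : 0 < ε) :
    (τ.mat (fc (ramp ε) a)).re ≤ dTr τ a :=
  ramp_le_dRho (M := Mat k A) τ.mat (fun a => τ.mat_pos a) ha hε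

lemma exists_lt_ramp_dTr (τ : TracialState A) {k : ℕ} {a : Mat k A} (ha : 0 ≤ a) {ζ : ℝ}
    (hζ : ζ < dTr τ a) : ∃ δ : ℝ, 0 < δ ∧ ζ < (τ.mat (fc (ramp δ) a)).re :=
  exists_lt_ramp (M := Mat k A) τ.mat (fun a => τ.mat_pos a) ha hζ

lemma ramp_mono_mat (τ : TracialState A) {k : ℕ} {a : Mat k A} (ha : 0 ≤ a) {δ δ' : ℝ}
    (hδ' : 0 < δ') (hδ : δ' ≤ δ) : (τ.mat (fc (ramp δ) a)).re ≤ (τ.mat (fc (ramp δ') a)).re :=
  ramp_mono (M := Mat k A) τ.mat (fun a => τ.mat_pos a) ha hδ' hδ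
end

section
variable {X : Type*} [MetricSpace X] [CompactSpace X]

lemma cpx_mul (f g : C(X, ℝ)) : cpx (f * g) = cpx f * cpx g := by ext x; simp

lemma norm_mulOp_cpx_le (h : X ≃ₜ X) {f : C(X, ℝ)} {C : ℝ} (hC : 0 ≤ C) (hf : ∀ x, |f x| ≤ C) :
    ‖mulOp h (cpx f)‖ ≤ C := by
  refine (norm_mulOp_le h _).trans ?_
  rw [ContinuousMap.norm_le _ hC]
  intro x
  simpa using hf x

lemma mulOp_comm (h : X ≃ₜ X) (f g : C(X, ℂ)) : mulOp h f * mulOp h g = mulOp h g * mulOp h f := by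
  rw [← mulOp_mul, ← mulOp_mul, mul_comm]

/-- `u f = (f ∘ h⁻¹) u`, written for a function which is almost invariant. -/
lemma norm_mulOp_shiftOp_sub_le (h : X ≃ₜ X) (f g : C(X, ℝ)) {ε : ℝ} (hε : 0 ≤ ε)
    (hfg : ∀ x, |f (h x) - g x| ≤ ε) :
    ‖mulOp h (cpx f) * shiftOp X - shiftOp X * mulOp h (cpx g)‖ ≤ ε := by
  rw [← shiftZ_one, shiftZ_mul_mulOp]
  have h1 : (cpx g).comp ((h ^ (-1 : ℤ) : X ≃ₜ X) : C(X, X))
      = cpx (g.comp ((h ^ (-1 : ℤ) : X ≃ₜ X) : C(X, X))) := by ext x; simp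
  rw [h1, ← sub_mul, ← mulOp_sub]
  have h2 : cpx f - cpx (g.comp ((h ^ (-1 : ℤ) : X ≃ₜ X) : C(X, X)))
      = cpx (f - g.comp ((h ^ (-1 : ℤ) : X ≃ₜ X) : C(X, X))) := by ext x; simp
  rw [h2]
  have h3 : ‖shiftZ X 1‖ ≤ 1 := norm_wop_le _ _ _ _ _ zero_le_one
  have h4 : ‖mulOp h (cpx (f - g.comp ((h ^ (-1 : ℤ) : X ≃ₜ X) : C(X, X))))‖ ≤ ε := by
    refine norm_mulOp_cpx_le h hε fun x => ?_
    have h5 := hfg ((h ^ (-1 : ℤ)) x)
    have h6 : h ((h ^ (-1 : ℤ)) x) = x := by
      have : h * (h ^ (-1 : ℤ)) = 1 := by simp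
      calc h ((h ^ (-1 : ℤ)) x) = (h * (h ^ (-1 : ℤ)) : X ≃ₜ X) x := rfl
        _ = x := by rw [this]; rfl
    rw [h6] at h5
    simpa using h5
  calc _ ≤ _ := norm_mul_le _ _
    _ ≤ ε * 1 := mul_le_mul h4 h3 (norm_nonneg _) hε
    _ = ε := mul_one ε

lemma norm_projOp_le (n : ℕ) (i : ZMod n) : ‖projOp X n i‖ ≤ 1 :=
  norm_wop_le _ _ _ _ _ zero_le_one

/-- The element `E_j = ∑ P(i-j) G_i` almost commutes with the shift. -/
lemma norm_comm_shift_le (h : X ≃ₜ X) (n : ℕ) [NeZero n] (G : ZMod n → C(X, ℝ)) {ε : ℝ}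
    (hε : 0 ≤ ε) (hG : ∀ i x, |G i (h x) - G (i - 1) x| ≤ ε) (j : ZMod n) :
    ‖(∑ i, projOp X n (i - j) * mulOp h (cpx (G i))) * shiftOp X
      - shiftOp X * ∑ i, projOp X n (i - j) * mulOp h (cpx (G i))‖ ≤ n * ε := by
  have h1 : shiftOp X * ∑ i, projOp X n (i - j) * mulOp h (cpx (G i))
      = ∑ i, projOp X n (i - j) * (shiftOp X * mulOp h (cpx (G (i - 1)))) := by
    rw [Finset.mul_sum]
    rw [← Equiv.sum_comp (Equiv.subRight (1 : ZMod n))]
    refine Finset.sum_congr rfl fun i _ => ?_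
    have h2 := projOp_shiftOp (X := X) n (i - j)
    rw [Equiv.subRight_apply, ← mul_assoc, ← mul_assoc, h2]
    congr 3
    ring
  rw [h1, Finset.sum_mul, ← Finset.sum_sub_distrib]
  calc _ ≤ ∑ i : ZMod n, ‖projOp X n (i - j) * mulOp h (cpx (G i)) * shiftOp X
        - projOp X n (i - j) * (shiftOp X * mulOp h (cpx (G (i - 1))))‖ := norm_sum_le _ _
    _ ≤ ∑ _i : ZMod n, ε := by
        refine Finset.sum_le_sum fun i _ => ?_
        rw [mul_assoc, ← mul_sub]
        have h3 := norm_mulOp_shiftOp_sub_le h (G i) (G (i - 1)) hε (hG i)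
        calc _ ≤ _ := norm_mul_le _ _
          _ ≤ 1 * ε := mul_le_mul (norm_projOp_le n _) h3 (norm_nonneg _) zero_le_one
          _ = ε := one_mul ε
    _ = n * ε := by simp [ZMod.card]

lemma dg_comm_matrix (h : X ≃ₜ X) (k : ℕ) (z : Op X)
    (hz : ∀ f : C(X, ℂ), z * mulOp h f = mulOp h f * z) (F : Fin k → Fin k → C(X, ℂ)) :
    dg k z * CStarMatrix.ofMatrix (Matrix.of fun i j => mulOp h (F i j))
      = CStarMatrix.ofMatrix (Matrix.of fun i j => mulOp h (F i j)) * dg k z := by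
  refine CStarMatrix.ext fun i j => ?_
  rw [dg_mul_apply, mul_dg_apply]
  exact hz (F i j)

lemma comm_single (h : X ≃ₜ X) (k : ℕ) (T : Mat k (Cross h)) (K δ : ℝ) (hK : 0 ≤ K)
    (hδ : 0 < δ) : ∃ ε₀ : ℝ, 0 < ε₀ ∧ ∀ z : Op X, ‖z‖ ≤ K →
      (∀ f : C(X, ℂ), z * mulOp h f = mulOp h f * z) →
      ‖z * shiftOp X - shiftOp X * z‖ ≤ ε₀ → ‖dg k z * inc h T - inc h T * dg k z‖ ≤ δ := by
  obtain ⟨ε₀, hε₀, H⟩ := comm_small h T K δ hK hδ
  refine ⟨ε₀, hε₀, fun z hz hc hs => H (dg k z) ((norm_dg_le k z).trans hz)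
    (dg_comm_matrix h k z hc) ?_⟩
  rw [← dg_mul, ← dg_mul, ← dg_sub]
  exact (norm_dg_le k _).trans hs

lemma le_norm_smul_one {M : Type*} [CStarAlgebra M] [PartialOrder M] [StarOrderedRing M] {a : M}
    (ha : 0 ≤ a) : a ≤ (((‖a‖ + 1 : ℝ)) : ℂ) • (1 : M) := by
  have h1 : a ≤ algebraMap ℝ M ‖a‖ := IsSelfAdjoint.le_algebraMap_norm_self (IsSelfAdjoint.of_nonneg ha)
  have h2 : algebraMap ℝ M ‖a‖ = ((‖a‖ : ℝ) : ℂ) • (1 : M) := by
    rw [Algebra.algebraMap_eq_smul_one]
    exact (Complex.coe_smul ‖a‖ (1 : M)).symm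
  have h3 : (((‖a‖ + 1 : ℝ)) : ℂ) • (1 : M) = ((‖a‖ : ℝ) : ℂ) • (1 : M) + 1 := by
    push_cast
    rw [add_smul, one_smul]
  rw [h3, ← h2]
  exact h1.trans (le_add_of_nonneg_right zero_le_one)

/-- The averaging step: from the coset algebra back to the crossed product, with remainder. -/
theorem approx_step [Infinite X] (h : X ≃ₜ X) (n : ℕ) [NeZero n] (hmin : MinimalHomeo h)
    (k : ℕ) (a b₁ b₂ : Mat (k + 1) (Cross h)) (ha : 0 ≤ a) (hb₁ : 0 ≤ b₁) (hb₂ : 0 ≤ b₂)
    (hb : b₁ * b₂ = 0) (hb₂0 : b₂ ≠ 0)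
    (hlift : ∀ ε : ℝ, 0 < ε → ∃ α : ZMod n → Mat (k + 1) (Cross h),
      ‖(∑ i, dg (k + 1) (projOp X n i) * inc h (α i)) * inc h b₁
        * star (∑ i, dg (k + 1) (projOp X n i) * inc h (α i)) - inc h a‖ < ε) :
    CuntzLE a (b₁ + b₂) := by
  have hfree := free_of_minimal h hmin
  refine CuntzLE.of_approx fun ε hε => ?_
  have hn : (0 : ℝ) < n := by exact_mod_cast Nat.pos_of_ne_zero (NeZero.ne n)
  obtain ⟨α, hα⟩ := hlift (ε / (4 * (n : ℝ) ^ 3)) (by positivity)
  -- constants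
  set K : ℝ := ‖a‖ + ‖b₁‖ + ∑ i, ‖α i‖ with hK
  have hK0 : 0 ≤ K := by positivity
  have hKa : ‖inc h a‖ ≤ K := by
    rw [norm_inc, hK]
    have : 0 ≤ ∑ i, ‖α i‖ := Finset.sum_nonneg fun i _ => norm_nonneg _
    linarith [norm_nonneg b₁]
  have hKb : ‖inc h b₁‖ ≤ K := by
    rw [norm_inc, hK]
    have : 0 ≤ ∑ i, ‖α i‖ := Finset.sum_nonneg fun i _ => norm_nonneg _
    linarith [norm_nonneg a]
  have hKα : ∀ i, ‖inc h (α i)‖ ≤ K := by
    intro i
    rw [norm_inc, hK]
    have := Finset.single_le_sum (f := fun i => ‖α i‖) (fun i _ => norm_nonneg _)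
      (Finset.mem_univ i)
    linarith [norm_nonneg a, norm_nonneg b₁]
  obtain ⟨C, hC, havg⟩ := averaging (M := Mat (k + 1) (Op X)) n K hK0
  set δ : ℝ := min 1 (ε / (4 * C)) with hδdef
  have hδ : 0 < δ := by positivity
  have hδ1 : δ ≤ 1 := min_le_left _ _
  have hδ2 : δ ≤ ε / (4 * C) := min_le_right _ _
  -- commutator thresholds
  obtain ⟨e₁, he₁, H₁⟩ := comm_single h (k + 1) a (n : ℝ) δ hn.le hδ
  obtain ⟨e₂, he₂, H₂⟩ := comm_single h (k + 1) b₁ (n : ℝ) δ hn.le hδ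
  have H₃' := fun i => comm_single h (k + 1) (α i) (n : ℝ) δ hn.le hδ
  choose e₃ he₃ H₃ using H₃'
  obtain ⟨e₃', he₃', hle₃⟩ : ∃ e : ℝ, 0 < e ∧ ∀ i, e ≤ e₃ i := by
    refine ⟨Finset.univ.inf' ⟨0, Finset.mem_univ _⟩ e₃, ?_,
      fun l => Finset.inf'_le _ (Finset.mem_univ l)⟩
    rw [Finset.lt_inf'_iff]
    exact fun l _ => he₃ l
  obtain ⟨e₄, he₄, H₄⟩ := comm_single h (k + 1) a 1 (ε / 4) zero_le_one (by positivity)
  set ε₀ : ℝ := min (min e₁ e₂) (min e₃' (e₄ ^ 2 / 2)) / n with hε₀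
  have hε₀pos : 0 < ε₀ := by positivity
  have hnε : (n : ℝ) * ε₀ = min (min e₁ e₂) (min e₃' (e₄ ^ 2 / 2)) := by
    rw [hε₀]; field_simp
  -- the function dominated by b₂
  obtain ⟨ω, hω0, hω, hωb⟩ := exists_fun_cuntz h hfree k b₂ hb₂ hb₂0
  obtain ⟨G, hG01, hGorth, hGslow, hrem⟩ := exists_phase h hmin n k ω hω0 hω ε₀ hε₀pos
  set r : C(X, ℝ) := 1 - ∑ i, G i * G i with hr
  have hrx : ∀ x, r x = 1 - ∑ i, G i x * G i x := by
    intro x
    simp [hr, ContinuousMap.coe_sum, Finset.sum_apply]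
  have hsum1 : ∀ x, ∑ i, G i x * G i x ≤ 1 := by
    intro x
    by_cases hex : ∃ i, G i x ≠ 0
    · obtain ⟨i, hi⟩ := hex
      rw [Finset.sum_eq_single i]
      · have := hG01 i x
        nlinarith
      · intro j _ hj
        have := hGorth j i hj x
        rcases mul_eq_zero.1 this with h' | h'
        · simp [h']
        · exact absurd h' hi
      · intro h'
        exact absurd (Finset.mem_univ i) h'
    · push Not at hex
      simp [hex]
  have hr0 : ∀ x, 0 ≤ r x := fun x => by rw [hrx]; linarith [hsum1 x]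
  have hr1 : ∀ x, r x ≤ 1 := fun x => by
    rw [hrx]
    have : 0 ≤ ∑ i, G i x * G i x := Finset.sum_nonneg fun i _ => mul_self_nonneg _
    linarith
  have hrslow : ∀ x, |r (h x) - r x| ≤ 2 * (n * ε₀) := by
    intro x
    have h1 : r (h x) - r x = ∑ i, (G (i - 1) x * G (i - 1) x - G i (h x) * G i (h x)) := by
      rw [hrx, hrx, Finset.sum_sub_distrib]
      have h2 : ∑ i, G (i - 1) x * G (i - 1) x = ∑ i, G i x * G i x :=
        Equiv.sum_comp (Equiv.subRight (1 : ZMod n)) (fun i => G i x * G i x)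
      rw [h2]; ring
    rw [h1]
    calc _ ≤ ∑ i, |G (i - 1) x * G (i - 1) x - G i (h x) * G i (h x)| :=
          Finset.abs_sum_le_sum_abs _ _
      _ ≤ ∑ _i : ZMod n, 2 * ε₀ := by
          refine Finset.sum_le_sum fun i _ => ?_
          have h3 := hGslow i x
          have h4 := hG01 i (h x)
          have h5 := hG01 (i - 1) x
          have h6 : G (i - 1) x * G (i - 1) x - G i (h x) * G i (h x)
              = -((G i (h x) - G (i - 1) x) * (G i (h x) + G (i - 1) x)) := by ring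
          rw [h6, abs_neg, abs_mul]
          have h7 : |G i (h x) + G (i - 1) x| ≤ 2 := by
            rw [abs_of_nonneg (by linarith)]; linarith
          calc _ ≤ ε₀ * 2 := mul_le_mul h3 h7 (abs_nonneg _) hε₀pos.le
            _ = 2 * ε₀ := by ring
      _ = 2 * (n * ε₀) := by simp [ZMod.card]; ring
  let q : C(X, ℝ) := ⟨fun x => Real.sqrt (r x), by fun_prop⟩
  have hqx : ∀ x, q x = Real.sqrt (r x) := fun x => rfl
  have hqq : q * q = r := by
    ext x
    simp [hqx, Real.mul_self_sqrt (hr0 x)]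
  have hqslow : ∀ x, |q (h x) - q x| ≤ e₄ := by
    intro x
    have h1 : |q (h x) - q x| ^ 2 ≤ |r (h x) - r x| := by
      rw [hqx, hqx]
      have hs1 := Real.sqrt_nonneg (r (h x))
      have hs2 := Real.sqrt_nonneg (r x)
      have e1 : r (h x) - r x = (Real.sqrt (r (h x)) - Real.sqrt (r x))
          * (Real.sqrt (r (h x)) + Real.sqrt (r x)) := by
        nlinarith [Real.mul_self_sqrt (hr0 (h x)), Real.mul_self_sqrt (hr0 x)]
      rw [e1, abs_mul, sq]
      refine mul_le_mul_of_nonneg_left ?_ (abs_nonneg _)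
      rw [abs_of_nonneg (add_nonneg hs1 hs2), abs_le]
      constructor <;> linarith
    have h2 : |q (h x) - q x| ^ 2 ≤ e₄ ^ 2 := by
      refine h1.trans ((hrslow x).trans ?_)
      rw [hnε]
      have : min (min e₁ e₂) (min e₃' (e₄ ^ 2 / 2)) ≤ e₄ ^ 2 / 2 :=
        (min_le_right _ _).trans (min_le_right _ _)
      linarith
    exact (pow_le_pow_iff_left₀ (abs_nonneg _) he₄.le two_ne_zero).1 h2
  -- the elements
  set v : Mat (k + 1) (Cross h) := ∑ i, dg (k + 1) (cfun h (G i)) * α i with hv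
  set Q : Mat (k + 1) (Cross h) := dg (k + 1) (cfun h q) with hQ
  have hQstar : star Q = Q := by rw [hQ, ← dg_star, star_cfun]
  refine ⟨v * b₁ * star v + Q * a * Q, ?_, ?_⟩
  · -- the estimate
    have hz : ∀ j : ZMod n, ∑ i, dg (k + 1) (projOp X n (i - j))
        * dg (k + 1) (mulOp h (cpx (G i)))
        = dg (k + 1) (∑ i, projOp X n (i - j) * mulOp h (cpx (G i))) := by
      intro j
      rw [dg_sum]
      exact Finset.sum_congr rfl fun i _ => (dg_mul _ _ _).symm
    have hznorm : ∀ j : ZMod n, ‖∑ i, projOp X n (i - j) * mulOp h (cpx (G i))‖ ≤ n := by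
      intro j
      calc _ ≤ ∑ i : ZMod n, ‖projOp X n (i - j) * mulOp h (cpx (G i))‖ := norm_sum_le _ _
        _ ≤ ∑ _i : ZMod n, (1 : ℝ) := by
            refine Finset.sum_le_sum fun i _ => ?_
            calc _ ≤ _ := norm_mul_le _ _
              _ ≤ 1 * 1 := mul_le_mul (norm_projOp_le n _)
                  (norm_mulOp_cpx_le h zero_le_one fun x => by
                    rw [abs_of_nonneg (hG01 i x).1]; exact (hG01 i x).2)
                  (norm_nonneg _) zero_le_one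
              _ = 1 := one_mul 1
        _ = n := by simp [ZMod.card]
    have hzcomm : ∀ (j : ZMod n) (f : C(X, ℂ)),
        (∑ i, projOp X n (i - j) * mulOp h (cpx (G i))) * mulOp h f
          = mulOp h f * ∑ i, projOp X n (i - j) * mulOp h (cpx (G i)) := by
      intro j f
      rw [Finset.sum_mul, Finset.mul_sum]
      refine Finset.sum_congr rfl fun i _ => ?_
      rw [mul_assoc, mulOp_comm, ← mul_assoc, projOp_mulOp, mul_assoc]
    have hzshift : ∀ j : ZMod n, ‖(∑ i, projOp X n (i - j) * mulOp h (cpx (G i))) * shiftOp X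
        - shiftOp X * ∑ i, projOp X n (i - j) * mulOp h (cpx (G i))‖
          ≤ min (min e₁ e₂) (min e₃' (e₄ ^ 2 / 2)) := by
      intro j
      rw [← hnε]
      exact norm_comm_shift_le h n G hε₀pos.le hGslow j
    have hS := swapOp_unitary h
    have havg' := havg (fun i => dg (k + 1) (projOp X n i))
      (fun i => dg (k + 1) (mulOp h (cpx (G i)))) (fun i => inc h (α i))
      (dg (k + 1) (swapOp h)) (inc h a) (inc h b₁) (ε / (4 * (n : ℝ) ^ 3)) δ
      (by positivity) hδ.le hδ1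
      (fun i => by rw [← dg_star, star_projOp])
      (fun i => by rw [← dg_mul, projOp_mul_self])
      (fun i j hij => by rw [← dg_mul, projOp_mul_ne n i j hij, dg_zero])
      (by rw [← dg_sum, sum_projOp, dg_one])
      (by rw [← dg_star, ← dg_mul, hS.1, dg_one])
      (by rw [← dg_star, ← dg_mul, hS.2, dg_one])
      (fun i => by rw [← dg_star, ← dg_mul, ← dg_mul, swapOp_projOp])
      (fun i => by
        rw [← dg_star, ← mulOp_star]
        congr 2
        ext x; simp)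
      (fun i => (norm_dg_le _ _).trans (norm_mulOp_cpx_le h zero_le_one fun x => by
        rw [abs_of_nonneg (hG01 i x).1]; exact (hG01 i x).2))
      (fun i j hij => by
        rw [← dg_mul, ← mulOp_mul]
        have : cpx (G i) * cpx (G j) = 0 := by
          ext x
          have := hGorth i j hij x
          simp only [ContinuousMap.mul_apply, cpx_apply, ContinuousMap.zero_apply]
          rw [← Complex.ofReal_mul, this, Complex.ofReal_zero]
        rw [this, mulOp_zero, dg_zero])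
      (fun i j => by rw [← dg_mul, ← dg_mul, projOp_mulOp])
      (fun i => by
        rw [← dg_mul, ← dg_mul]
        congr 1
        exact swapOp_comm h (cfun h (G i)))
      (by
        refine CStarMatrix.ext fun i j => ?_
        rw [dg_mul_apply, mul_dg_apply]
        exact swapOp_comm h (a i j))
      (by
        refine CStarMatrix.ext fun i j => ?_
        rw [dg_mul_apply, mul_dg_apply]
        exact swapOp_comm h (b₁ i j))
      (fun l => by
        refine CStarMatrix.ext fun i j => ?_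
        rw [dg_mul_apply, mul_dg_apply]
        exact swapOp_comm h (α l i j))
      hKa hKb hKα
      (fun j => by
        rw [hz]
        exact H₁ _ (hznorm j) (hzcomm j)
          ((hzshift j).trans ((min_le_left _ _).trans (min_le_left _ _))))
      (fun j => by
        rw [hz]
        exact H₂ _ (hznorm j) (hzcomm j)
          ((hzshift j).trans ((min_le_left _ _).trans (min_le_right _ _))))
      (fun j l => by
        rw [hz]
        exact H₃ l _ (hznorm j) (hzcomm j)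
          ((hzshift j).trans ((min_le_right _ _).trans ((min_le_left _ _).trans (hle₃ l)))))
      hα.le
    have hfirst : ‖v * b₁ * star v - dg (k + 1) (cfun h (∑ i, G i * G i)) * a‖ ≤ ε / 2 := by
      rw [← norm_inc h, ← incHom_apply, map_sub, map_mul, map_mul, map_mul, map_star]
      simp only [incHom_apply]
      have e1 : inc h v = ∑ i, dg (k + 1) (mulOp h (cpx (G i))) * inc h (α i) := by
        rw [hv, ← incHom_apply, map_sum]
        refine Finset.sum_congr rfl fun i _ => ?_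
        rw [map_mul, incHom_apply, incHom_apply, inc_dg, val_cfun]
      have e2 : inc h (dg (k + 1) (cfun h (∑ i, G i * G i)))
          = ∑ i, dg (k + 1) (mulOp h (cpx (G i))) * dg (k + 1) (mulOp h (cpx (G i))) := by
        rw [inc_dg, cfun_sum, map_sum, dg_sum]
        refine Finset.sum_congr rfl fun i _ => ?_
        rw [cfun_mul, map_mul, val_cfun, dg_mul]
      rw [e1, e2]
      refine havg'.trans ?_
      have e3 : (n : ℝ) ^ 3 * (ε / (4 * (n : ℝ) ^ 3)) = ε / 4 := by field_simp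
      have e4 : C * δ ≤ ε / 4 := by
        calc C * δ ≤ C * (ε / (4 * C)) := by gcongr
          _ = ε / 4 := by field_simp
      linarith
    have hsecond : ‖Q * a * Q - dg (k + 1) (cfun h r) * a‖ ≤ ε / 4 := by
      have e1 : dg (k + 1) (cfun h r) = Q * Q := by
        rw [hQ, ← dg_mul, ← cfun_mul, hqq]
      rw [e1, mul_assoc, mul_assoc, ← mul_sub]
      have e2 : ‖Q‖ ≤ 1 := by
        refine (norm_dg_le _ _).trans (norm_cfun_le h zero_le_one fun x => ?_)
        rw [hqx, abs_of_nonneg (Real.sqrt_nonneg _)]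
        exact Real.sqrt_le_one.2 (hr1 x)
      have e3 : ‖a * Q - Q * a‖ ≤ ε / 4 := by
        rw [norm_sub_rev, ← norm_inc h, ← incHom_apply, map_sub, map_mul, map_mul]
        simp only [incHom_apply]
        rw [hQ, inc_dg, val_cfun]
        refine H₄ _ (norm_mulOp_cpx_le h zero_le_one fun x => ?_) (fun f => mulOp_comm h _ _) ?_
        · rw [hqx, abs_of_nonneg (Real.sqrt_nonneg _)]
          exact Real.sqrt_le_one.2 (hr1 x)
        · exact norm_mulOp_shiftOp_sub_le h q q he₄.le hqslow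
      calc _ ≤ _ := norm_mul_le _ _
        _ ≤ 1 * (ε / 4) := mul_le_mul e2 e3 (norm_nonneg _) zero_le_one
        _ = ε / 4 := one_mul _
    have hsplit : v * b₁ * star v + Q * a * Q - a
        = (v * b₁ * star v - dg (k + 1) (cfun h (∑ i, G i * G i)) * a)
          + (Q * a * Q - dg (k + 1) (cfun h r) * a) := by
      have e1 : dg (k + 1) (cfun h (∑ i, G i * G i)) + dg (k + 1) (cfun h r)
          = (1 : Mat (k + 1) (Cross h)) := by
        rw [← dg_add, ← cfun_add, hr]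
        rw [add_sub_cancel, cfun_one, dg_one]
      have e2 : a = dg (k + 1) (cfun h (∑ i, G i * G i)) * a + dg (k + 1) (cfun h r) * a := by
        rw [← add_mul, e1, one_mul]
      calc v * b₁ * star v + Q * a * Q - a = v * b₁ * star v + Q * a * Q
            - (dg (k + 1) (cfun h (∑ i, G i * G i)) * a + dg (k + 1) (cfun h r) * a) := by
              rw [← e2]
        _ = _ := by abel
    rw [hsplit]
    calc _ ≤ _ := norm_add_le _ _
      _ ≤ ε / 2 + ε / 4 := add_le_add hfirst hsecond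
      _ ≤ ε := by linarith
  · -- the comparison
    refine CuntzLE.add_of_orth hb₁ hb₂ hb (CuntzLE.conj v b₁) ?_
    have e1 : 0 ≤ Q * a * Q := by
      have := star_left_conjugate_nonneg ha Q
      rwa [hQstar] at this
    have e2 : Q * a * Q ≤ (((‖a‖ + 1 : ℝ)) : ℂ) • dg (k + 1) (cfun h r) := by
      have e3 : a ≤ (((‖a‖ + 1 : ℝ)) : ℂ) • (1 : Mat (k + 1) (Cross h)) := le_norm_smul_one ha
      have e5 := star_left_conjugate_le_conjugate e3 Q
      rw [hQstar] at e5
      refine e5.trans (le_of_eq ?_)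
      rw [mul_smul_comm, mul_one, smul_mul_assoc]
      congr 1
      rw [hQ, ← dg_mul, ← cfun_mul, hqq]
    exact ((CuntzLE.of_le_smul e1 _ (by positivity) e2).trans hrem).trans hωb

/-- Comparison passes from the power to the homeomorphism, with the gap divided by `n`. -/
theorem comparesAt_of_pow [Infinite X] (h : X ≃ₜ X) (n : ℕ) [NeZero n]
    (hmin : MinimalHomeo (h ^ n)) (R : ℝ) (hR : 0 < R)
    (hcomp : ComparesAt (Cross (h ^ n)) R) : ComparesAt (Cross h) (R / n) := by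
  have hn : (0 : ℝ) < n := by exact_mod_cast Nat.pos_of_ne_zero (NeZero.ne n)
  have hmin1 := minimal_of_pow h n hmin
  have hfree := free_of_minimal h hmin1
  intro k a b ha hb hab
  rcases k with _ | k
  · intro ε hε
    refine ⟨0, ?_⟩
    have : (0 : Mat 0 (Cross h)) * b * star 0 - a = 0 := CStarMatrix.ext fun i _ => i.elim0
    rw [this, norm_zero]
    exact hε
  obtain ⟨τ₀⟩ := nonempty_trace_of_comparesAt h n R hcomp
  have hb0 : b ≠ 0 := by
    rintro rfl
    have h1 := hab τ₀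
    have h2 : dTr τ₀ (0 : Mat (k + 1) (Cross h)) = 0 := dTr_zero' τ₀
    have h3 : 0 ≤ dTr τ₀ a := dTr_nonneg' τ₀ ha
    have h4 : 0 < R / n := by positivity
    rw [h2] at h1
    linarith
  refine CuntzLE.of_approx fun ε hε => ⟨cut ε a,
    norm_cut_sub_le (M := Mat (k + 1) (Cross h)) ha hε.le, ?_⟩
  -- a uniform gap
  have hmono : ∀ τ : TracialState (Cross h),
      Monotone fun m : ℕ => (τ.mat (fc (ramp (1 / ((m : ℝ) + 1))) b)).re := by
    intro τ i j hij
    have hij' : (i : ℝ) ≤ j := by exact_mod_cast hij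
    exact ramp_mono_mat τ hb (by positivity) (by gcongr)
  have hex : ∀ τ : TracialState (Cross h), ∃ m : ℕ, (τ.mat (fc (ramp ε) a)).re + R / n
      < (τ.mat (fc (ramp (1 / ((m : ℝ) + 1))) b)).re := by
    intro τ
    obtain ⟨δ, hδ, hδ'⟩ := exists_lt_ramp_dTr τ hb (hab τ)
    obtain ⟨m, hm⟩ := exists_nat_one_div_lt hδ
    have h1 := ramp_mono_mat τ hb (δ := δ) (δ' := 1 / ((m : ℝ) + 1)) (by positivity) hm.le
    have h2 := ramp_le_dTr τ ha hε
    exact ⟨m, by linarith⟩
  obtain ⟨m, η, hη, hgap⟩ := uniform_gap (A := Cross h) (fc (ramp ε) a)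
    (fun m : ℕ => fc (ramp (1 / ((m : ℝ) + 1))) b) (R / n) hmono hex
  obtain ⟨b₁, b₂, hb₁, hb₁1, hb₂, hb₂0, horth, ⟨C, hC, hle⟩, htr⟩ :=
    exists_split h hfree k b hb hb0 (1 / ((m : ℝ) + 1)) (η / 2) (by positivity) (by positivity)
  have ha₀ : 0 ≤ cut ε a := cut_nonneg (M := Mat (k + 1) (Cross h)) a ε
  have hgap2 : ∀ τ : TracialState (Cross h), dTr τ (cut ε a) + R / n < dTr τ b₁ := by
    intro τ
    have h1 := dTr_cut_le τ ha hε
    have h2 := hgap τ
    have h3 := htr τ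
    have h4 := le_dTr τ hb₁ hb₁1
    linarith
  have hstep : CuntzLE (cut ε a) (b₁ + b₂) :=
    approx_step h n hmin1 k (cut ε a) b₁ b₂ ha₀ hb₁ hb₂ horth hb₂0 fun ε' hε' =>
      comparison_lift h n R (R / n) (by rw [mul_div_cancel₀ _ hn.ne']) hcomp (cut ε a) b₁ ha₀ hb₁
        hgap2 ε' hε'
  exact hstep.trans (CuntzLE.of_le_smul (add_nonneg hb₁ hb₂) C hC hle)

/-- The inequality `n rc(C*(Z,X,h)) ≤ rc(C*(Z,X,h^n))`. -/
theorem mul_rc_le [Infinite X] (h : X ≃ₜ X) (n : ℕ) (hn : 0 < n)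
    (hmin : MinimalHomeo (h ^ n)) : (n : ℝ≥0∞) * rc (Cross h) ≤ rc (Cross (h ^ n)) := by
  have : NeZero n := ⟨hn.ne'⟩
  have hn' : (0 : ℝ) < n := by exact_mod_cast hn
  refine le_sInf ?_
  rintro r ⟨R, hR, hcomp, rfl⟩
  have h1 : rc (Cross h) ≤ ENNReal.ofReal (R / n) :=
    sInf_le ⟨R / n, by positivity, comparesAt_of_pow h n hmin R hR hcomp, rfl⟩
  calc (n : ℝ≥0∞) * rc (Cross h) ≤ (n : ℝ≥0∞) * ENNReal.ofReal (R / n) := by gcongr
    _ = ENNReal.ofReal R := by
        rw [← ENNReal.ofReal_natCast n, ← ENNReal.ofReal_mul hn'.le, mul_div_cancel₀ _ hn'.ne']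

end

end Pool.Agent.Helper61.RC
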