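import Pool.Agent.Helper61.RC.Final

/-!
# Compact definitions for the statement

`cstarGen S` is the C*-algebra generated by a set `S`; `BOp X` is the C*-algebra of bounded
operators on `l^2(Z x X)`; `crossed h` is the C*-algebra `C*(Z, X, h)` in its regular
representation; `rcOf A` is the radius of comparison of `A`.
-/

open scoped ENNReal NNReal Topology CStarAlgebra ComplexOrder

noncomputable section

namespace Pool.Agent.Helper61.RC

universe u v

/-- The C*-algebra generated by a set: the closure of the unital *-algebra generated by it. -/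
def cstarGen {A : Type v} [CStarAlgebra A] (S : Set A) : StarSubalgebra ℂ A :=
  (StarAlgebra.adjoin ℂ S).topologicalClosure

instance isClosed_cstarGen {A : Type v} [CStarAlgebra A] (S : Set A) :
    IsClosed ((cstarGen S : StarSubalgebra ℂ A) : Set A) :=
  StarSubalgebra.isClosed_topologicalClosure _

/-- The bounded operators on the Hilbert space `l^2(Z x X)`. -/
def BOp (X : Type u) : Type u := L2 (ℤ × X) →L[ℂ] L2 (ℤ × X)

instance instCStarAlgebraBOp (X : Type u) : CStarAlgebra (BOp X) :=
  (inferInstance : CStarAlgebra (L2 (ℤ × X) →L[ℂ] L2 (ℤ × X)))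

/-- `T` is the operator `(T ξ)(p, x) = f(h^p x) ξ(p, x)` for some `f ∈ C(X)`. -/
def IsMulOp {X : Type u} [TopologicalSpace X] (h : X ≃ₜ X)
    (T : L2 (ℤ × X) →L[ℂ] L2 (ℤ × X)) : Prop :=
  ∃ f : C(X, ℂ), ∀ (ξ : L2 (ℤ × X)) (q : ℤ × X), T ξ q = f ((h ^ q.1) q.2) * ξ q

/-- `T` is the operator `(T ξ)(p, x) = ξ(p - 1, x)`. -/
def IsShiftOp {X : Type u} (T : L2 (ℤ × X) →L[ℂ] L2 (ℤ × X)) : Prop :=
  ∀ (ξ : L2 (ℤ × X)) (q : ℤ × X), T ξ q = ξ (q.1 - 1, q.2)

/-- The generators of the crossed product. -/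
def crossedGens {X : Type u} [TopologicalSpace X] (h : X ≃ₜ X) : Set (BOp X) :=
  {T : L2 (ℤ × X) →L[ℂ] L2 (ℤ × X) | IsMulOp h T ∨ IsShiftOp T}

/-- The crossed product `C*(Z, X, h)` in its regular representation: the norm closure of the
*-algebra generated by the multiplication operators by `f(h^p x)`, `f ∈ C(X)`, and the shift. -/
abbrev crossed {X : Type u} [TopologicalSpace X] (h : X ≃ₜ X) : StarSubalgebra ℂ (BOp X) :=
  cstarGen (crossedGens h)

/-- The comparison property with gap `s` in matrices over `A` (for the unique C*-order on `A`). -/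
def ComparesOf (A : Type v) [CStarAlgebra A] (s : ℝ) : Prop :=
  @ComparesAt A _ (CStarAlgebra.spectralOrder A) (CStarAlgebra.spectralOrderedRing A) s

/-- The radius of comparison of a unital C*-algebra. -/
def rcOf (A : Type v) [CStarAlgebra A] : ℝ≥0∞ :=
  sInf {r : ℝ≥0∞ | ∃ s : ℝ, 0 < s ∧ ComparesOf A s ∧ r = ENNReal.ofReal s}

/-- The comparison property with gap `s` for `C*(Z, X, h)`. -/
def ComparesCross {X : Type u} [TopologicalSpace X] (h : X ≃ₜ X) (s : ℝ) : Prop :=
  ComparesOf (crossed h) s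

/-- The radius of comparison of `C*(Z, X, h)`. -/
def rcCross {X : Type u} [TopologicalSpace X] (h : X ≃ₜ X) : ℝ≥0∞ := rcOf (crossed h)

section
variable {X : Type u} [TopologicalSpace X] [CompactSpace X]

lemma crossedGens_eq (h : X ≃ₜ X) :
    (crossedGens h : Set (Op X)) = Set.range (mulOp h) ∪ {shiftOp X} := by
  refine Set.Subset.antisymm ?_ ?_
  · rintro T (⟨f, hf⟩ | hT)
    · refine Or.inl ⟨f, op_ext fun ξ q => ?_⟩
      rw [mulOp_apply, hf]
    · refine Or.inr (op_ext fun ξ q => ?_)
      rw [shiftOp_apply, hT]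
  · rintro T (⟨f, rfl⟩ | hT)
    · exact Or.inl ⟨f, fun ξ q => mulOp_apply h f ξ q⟩
    · have hT' : T = shiftOp X := hT
      subst hT'
      exact Or.inr fun ξ q => shiftOp_apply ξ q

lemma crossed_eq (h : X ≃ₜ X) : (crossed h : StarSubalgebra ℂ (Op X)) = crossSub h := by
  have h1 : (crossed h : StarSubalgebra ℂ (Op X))
      = cstarGen (A := Op X) (crossedGens h) := rfl
  rw [h1, crossedGens_eq]
  rfl

end

lemma comparesOf_crossed {X : Type u} [TopologicalSpace X] [CompactSpace X] (h : X ≃ₜ X) (s : ℝ) :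
    ComparesOf (crossed h) s ↔ ComparesAt (Cross h) s := by
  have key : ∀ (S : StarSubalgebra ℂ (Op X)) (hc : IsClosed (S : Set (Op X))), S = crossSub h →
      ((haveI := hc; ComparesOf S s) ↔ ComparesAt (Cross h) s) := by
    rintro S hc rfl
    exact Iff.rfl
  exact key (crossed h) (isClosed_cstarGen _) (crossed_eq h)

lemma rcOf_crossed {X : Type u} [TopologicalSpace X] [CompactSpace X] (h : X ≃ₜ X) :
    rcOf (crossed h) = rc (Cross h) := by
  unfold rcOf rc
  simp only [comparesOf_crossed]

lemma comparesCross_iff {X : Type u} [TopologicalSpace X] [CompactSpace X] (h : X ≃ₜ X) (s : ℝ) :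
    ComparesCross h s ↔ ComparesAt (Cross h) s := comparesOf_crossed h s

lemma rcCross_eq {X : Type u} [TopologicalSpace X] [CompactSpace X] (h : X ≃ₜ X) :
    rcCross h = rc (Cross h) := rcOf_crossed h

end Pool.Agent.Helper61.RC
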